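import Mathlib

set_option autoImplicit false

/-!
# The basin of the two-cycle of `x_{n+1} = (α + x_{n-1}) / (A + B x_n + x_{n-1})` (MP_a0c75d_an, Q1)

Let `α > 0`, `B > 1`, `0 ≤ A < 1` and `α < (B-1)(1-A)²/4`.  The pairs whose solution tends to the
equilibrium form the graph of a continuous strictly increasing function `φ` on `[0,∞)`, the unique
nonnegative nondecreasing solution of `φ(φ(x)) (A + B φ(x) + x) = α + x`; above the graph
`(x_{2n}, x_{2n+1}) → (M, m)`, below it `(x_{2n}, x_{2n+1}) → (m, M)`.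

Main steps: every solution is eventually `≥ (α-A)/B` and then its even and odd subsequences are
eventually monotone (`trich`); two solutions that are ordered (`x_{-1} ≤ x'_{-1}`, `x_0 ≥ x'_0`)
either stay ordered for ever, with alternating orientation, or converge to the same phase of the
two-cycle (`dich`); the difference of two ordered solutions cannot tend to zero near the
equilibrium (`growth`, `unique_of_PP`).
-/

namespace Pool.Agent.Results.MP_a0c75d_an.TwoCycleBasin

open Filter Topology Set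

/-- The solution of `x_{n+1} = (α + x_{n-1}) / (A + B x_n + x_{n-1})` with `x_{-1} = x`, `x_0 = y`,
the index being shifted by one: `sol 0 = x_{-1}`, `sol 1 = x_0` and `sol (n+1) = x_n`. -/
noncomputable def sol (α A B x y : ℝ) : ℕ → ℝ
  | 0 => x
  | 1 => y
  | (n + 2) => (α + sol α A B x y n) / (A + B * sol α A B x y (n + 1) + sol α A B x y n)

/-- The equilibrium. -/
noncomputable def xbar (α A B : ℝ) : ℝ :=
  (1 - A + √((1 - A) ^ 2 + 4 * α * (1 + B))) / (2 * (1 + B))

/-- The smaller point `m` of the two-cycle. -/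
noncomputable def mlo (α A B : ℝ) : ℝ := (1 - A - √((1 - A) ^ 2 - 4 * α / (B - 1))) / 2

/-- The larger point `M` of the two-cycle. -/
noncomputable def mhi (α A B : ℝ) : ℝ := (1 - A + √((1 - A) ^ 2 - 4 * α / (B - 1))) / 2

/-- Solutions as sequences. -/
def IsSol (α A B : ℝ) (z : ℕ → ℝ) : Prop :=
  0 ≤ z 0 ∧ 0 ≤ z 1 ∧ 0 < A + B * z 1 + z 0 ∧
    ∀ n, z (n + 2) = (α + z n) / (A + B * z (n + 1) + z n)

/-- The data that the proof uses. -/
structure Dat (α A B e m M : ℝ) : Prop where
  hα : 0 < α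
  hB : 1 < B
  hA : 0 ≤ A
  hA1 : A < 1
  he : 0 < e
  heq : (1 + B) * e ^ 2 = (1 - A) * e + α
  he2 : 2 * e < 1 - A
  hm : 0 < m
  hmM : m < M
  hs : m + M = 1 - A
  hp : (B - 1) * (m * M) = α

variable {α A B e m M : ℝ}

section basic

theorem Dat.hme (D : Dat α A B e m M) : m < e := by
  obtain ⟨hα, hB, hA, hA1, he, heq, he2, hm, hmM, hs, hp⟩ := D
  by_contra h
  push Not at h
  -- (1+B) m² - (1-A) m - α < 0, while e ≤ m
  have h1 : (1 + B) * m ^ 2 - (1 - A) * m - α = B * m * (m - M) := by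
    rw [← hp, ← hs]; ring
  have h2 : B * m * (m - M) < 0 := mul_neg_of_pos_of_neg (by positivity) (by linarith)
  have h3 : (1 + B) * m ^ 2 - (1 - A) * m - α
      = (m - e) * ((1 + B) * (m + e) - (1 - A)) := by
    have : α = (1 + B) * e ^ 2 - (1 - A) * e := by linarith
    rw [this]; ring
  have h4 : 0 < (1 + B) * (m + e) - (1 - A) := by
    have : (1 + B) * e - (1 - A) > 0 := by
      have h5 : e * ((1 + B) * e - (1 - A)) = α := by nlinarith
      by_contra hc
      push Not at hc
      nlinarith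
    nlinarith
  nlinarith [mul_nonneg (sub_nonneg.2 h) h4.le]

theorem Dat.heM (D : Dat α A B e m M) : e < M := by
  obtain ⟨hα, hB, hA, hA1, he, heq, he2, hm, hmM, hs, hp⟩ := D
  linarith

theorem Dat.hαB (D : Dat α A B e m M) : α < B := by
  obtain ⟨hα, hB, hA, hA1, he, heq, he2, hm, hmM, hs, hp⟩ := D
  have h1 : m * M < 1 := by nlinarith
  nlinarith [mul_pos hm (hm.trans hmM)]

theorem Dat.hden (D : Dat α A B e m M) : (α + e) = e * (A + B * e + e) := by
  have := D.heq
  linarith [this, sq e]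

/-- `x̄ > κ`. -/
theorem Dat.hk (D : Dat α A B e m M) : A + B * e - α = (1 - e) * (A + (B + 1) * e) := by
  have := D.heq
  linarith [this, sq e]

theorem Dat.he1 (D : Dat α A B e m M) : e < 1 := by
  have := D.he2
  have := D.hA
  linarith [D.he]

theorem Dat.hkpos (D : Dat α A B e m M) : α < A + B * e := by
  have h1 := D.hk
  have h2 := D.he1
  have h3 : 0 < A + (B + 1) * e := by
    have := D.hA; have := D.he; have := D.hB; nlinarith
  nlinarith [mul_pos (sub_pos.2 h2) h3]

end basic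

section sols

variable {z w : ℕ → ℝ}

theorem IsSol.base (D : Dat α A B e m M) (h : IsSol α A B z) (n : ℕ) :
    0 ≤ z n ∧ 0 ≤ z (n + 1) ∧ 0 < A + B * z (n + 1) + z n := by
  induction n with
  | zero => exact ⟨h.1, h.2.1, h.2.2.1⟩
  | succ n ih =>
    obtain ⟨h0, h1, h2⟩ := ih
    have h3 : 0 < z (n + 2) := by
      rw [h.2.2.2 n]
      exact div_pos (by linarith [D.hα]) h2
    refine ⟨h1, h3.le, ?_⟩
    have h4 : 0 < B * z (n + 2) := mul_pos (by linarith [D.hB]) h3
    have := D.hA
    show 0 < A + B * z (n + 2) + z (n + 1)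
    linarith

theorem IsSol.nn (D : Dat α A B e m M) (h : IsSol α A B z) (n : ℕ) : 0 ≤ z n := (h.base D n).1

theorem IsSol.den (D : Dat α A B e m M) (h : IsSol α A B z) (n : ℕ) :
    0 < A + B * z (n + 1) + z n := (h.base D n).2.2

theorem IsSol.pos (D : Dat α A B e m M) (h : IsSol α A B z) (n : ℕ) : 0 < z (n + 2) := by
  rw [h.2.2.2 n]
  exact div_pos (by linarith [D.hα, h.nn D n]) (h.den D n)

theorem IsSol.shift (D : Dat α A B e m M) (h : IsSol α A B z) (j : ℕ) :
    IsSol α A B (fun n => z (n + j)) := by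
  refine ⟨h.nn D _, h.nn D _, ?_, fun n => ?_⟩
  · have := h.den D j
    simpa [add_comm] using this
  · have := h.2.2.2 (n + j)
    simp only
    rw [show n + 2 + j = n + j + 2 by ring, show n + 1 + j = n + j + 1 by ring]
    exact this

theorem diff_formula {u v u' v' : ℝ} (h1 : 0 < A + B * u + v) (h2 : 0 < A + B * u' + v') :
    (α + v') / (A + B * u' + v') - (α + v) / (A + B * u + v)
      = ((u - u') * (B * (α + v)) + (v' - v) * (A + B * u - α))
        / ((A + B * u + v) * (A + B * u' + v')) := by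
  rw [div_sub_div _ _ h2.ne' h1.ne', div_eq_div_iff (by positivity) (by positivity)]
  ring

theorem step_le (hα : 0 < α) (hB : 1 < B) {u v u' v' : ℝ} (h1 : 0 < A + B * u + v)
    (h2 : 0 < A + B * u' + v') (hu : u' ≤ u) (hv : v ≤ v') (hv0 : 0 ≤ v)
    (hk : α ≤ A + B * u) :
    (α + v) / (A + B * u + v) ≤ (α + v') / (A + B * u' + v') := by
  have h3 := diff_formula (α := α) h1 h2
  have h4 : 0 ≤ ((u - u') * (B * (α + v)) + (v' - v) * (A + B * u - α))
        / ((A + B * u + v) * (A + B * u' + v')) := by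
    apply div_nonneg _ (by positivity)
    have h5 : 0 ≤ (u - u') * (B * (α + v)) :=
      mul_nonneg (by linarith) (mul_nonneg (by linarith) (by linarith))
    have h6 : 0 ≤ (v' - v) * (A + B * u - α) := mul_nonneg (by linarith) (by linarith)
    linarith
  linarith

theorem one_le_step {u v : ℝ} (h1 : 0 < A + B * u + v) (hk : A + B * u ≤ α) :
    1 ≤ (α + v) / (A + B * u + v) := by
  rw [le_div_iff₀ h1]; linarith

theorem step_le_one {u v : ℝ} (h1 : 0 < A + B * u + v) (hk : α ≤ A + B * u) :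
    (α + v) / (A + B * u + v) ≤ 1 := by
  rw [div_le_iff₀ h1]; linarith

/-- Boundedness. -/
theorem IsSol.bdd (D : Dat α A B e m M) (h : IsSol α A B z) : ∃ K, 0 < K ∧ ∀ n, z n ≤ K := by
  have hα := D.hα
  have hB := D.hB
  have hA := D.hA
  have hαB := D.hαB
  set K0 : ℝ := (α + 1) * (1 + (A + B) / (B * α)) with hK0
  have hq : 0 < (A + B) / (B * α) := by positivity
  have key : ∀ j, z (j + 3) ≤ K0 := by
    intro j
    rw [h.2.2.2 (j + 1)]
    have h0 := h.nn D j
    have h1 := h.nn D (j + 1)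
    have h2 := h.nn D (j + 2)
    have hd := h.den D (j + 1)
    have hd0 := h.den D j
    rw [div_le_iff₀ hd]
    rcases le_or_gt 1 (z (j + 1)) with hc | hc
    · have h3 : (α + 1) * z (j + 1) ≤ K0 * (A + B * z (j + 1 + 1) + z (j + 1)) := by
        apply mul_le_mul
        · rw [hK0]; nlinarith
        · have : 0 ≤ B * z (j + 1 + 1) := mul_nonneg (by linarith) h2
          linarith
        · exact h1
        · rw [hK0]; positivity
      nlinarith
    · have h3 : α / (A + B) ≤ z (j + 2) := by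
        rw [h.2.2.2 j, div_le_div_iff₀ (by positivity) hd0]
        have : 0 ≤ α * B * (1 - z (j + 1)) + z j * (A + B - α) := by
          have h5 : 0 ≤ α * B * (1 - z (j + 1)) := by
            apply mul_nonneg (by positivity); linarith
          have h6 : 0 ≤ z j * (A + B - α) := mul_nonneg h0 (by linarith)
          linarith
        nlinarith
      have h4 : (α + 1) ≤ K0 * (A + B * z (j + 1 + 1) + z (j + 1)) := by
        have h5 : (α + 1) = ((α + 1) * ((A + B) / (B * α))) * (B * (α / (A + B))) := by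
          field_simp
        rw [h5]
        apply mul_le_mul
        · rw [hK0]; nlinarith
        · have : B * (α / (A + B)) ≤ B * z (j + 2) := mul_le_mul_of_nonneg_left h3 (by linarith)
          show B * (α / (A + B)) ≤ A + B * z (j + 2) + z (j + 1)
          linarith
        · positivity
        · rw [hK0]; positivity
      linarith
  refine ⟨z 0 + z 1 + z 2 + K0, ?_, fun n => ?_⟩
  · have := h.nn D 0
    have := h.nn D 1
    have := h.nn D 2
    have : 0 < K0 := by rw [hK0]; positivity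
    linarith
  · have h0 := h.nn D 0
    have h1 := h.nn D 1
    have h2 := h.nn D 2
    have hKp : 0 < K0 := by rw [hK0]; positivity
    match n with
    | 0 => linarith
    | 1 => linarith
    | 2 => linarith
    | (j + 3) => linarith [key j]

/-- Positive lower bound. -/
theorem IsSol.lower (D : Dat α A B e m M) (h : IsSol α A B z) :
    ∃ c, 0 < c ∧ ∀ n, c ≤ z (n + 2) := by
  obtain ⟨K, hK, hb⟩ := h.bdd D
  have hα := D.hα
  have hB := D.hB
  have hA := D.hA
  refine ⟨α / (A + B * K + K), by positivity, fun n => ?_⟩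
  rw [h.2.2.2 n]
  have h0 := h.nn D n
  apply div_le_div₀
  · linarith
  · linarith
  · exact h.den D n
  · have : B * z (n + 1) ≤ B * K := mul_le_mul_of_nonneg_left (hb _) (by linarith)
    linarith [hb n]

theorem good_persist (D : Dat α A B e m M) (h : IsSol α A B z) (n : ℕ)
    (hg : α ≤ A + B * z (n + 1)) : α ≤ A + B * z (n + 3) := by
  have hα := D.hα
  have hB := D.hB
  have hA := D.hA
  have hαB := D.hαB
  have h1 : z (n + 2) ≤ 1 := by
    rw [h.2.2.2 n]; exact step_le_one (h.den D n) hg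
  have h2 := h.nn D (n + 1)
  have h3 := h.nn D (n + 2)
  have hd := h.den D (n + 1)
  rw [h.2.2.2 (n + 1)]
  have h4 : (α - A) * (A + B * z (n + 1 + 1) + z (n + 1)) ≤ B * (α + z (n + 1)) := by
    rcases le_or_gt α A with hc | hc
    · have : (α - A) * (A + B * z (n + 1 + 1) + z (n + 1)) ≤ 0 :=
        mul_nonpos_of_nonpos_of_nonneg (by linarith) hd.le
      have : 0 ≤ B * (α + z (n + 1)) := by positivity
      linarith
    · have h5 : (α - A) * (A + B * z (n + 1 + 1) + z (n + 1))
          ≤ (α - A) * (A + B + z (n + 1)) := by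
        apply mul_le_mul_of_nonneg_left _ (by linarith)
        have : B * z (n + 1 + 1) ≤ B * 1 := mul_le_mul_of_nonneg_left h1 (by linarith)
        linarith
      have h6 : 0 ≤ A * (A + B - α) := mul_nonneg hA (by linarith)
      have h7 : (α - A) * z (n + 1) ≤ B * z (n + 1) :=
        mul_le_mul_of_nonneg_right (by linarith) h2
      nlinarith
  have h8 : α - A ≤ B * (α + z (n + 1)) / (A + B * z (n + 1 + 1) + z (n + 1)) := by
    rw [le_div_iff₀ hd]; exact h4
  rw [mul_div_assoc] at h8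
  linarith

theorem all_bad_false (D : Dat α A B e m M) (h : IsSol α A B z)
    (hbad : ∀ k, A + B * z (2 * k + 1) < α) : False := by
  have hα := D.hα
  have hB := D.hB
  have hA := D.hA
  have hαB := D.hαB
  have hαA : A < α := by
    have := hbad 0
    have h1 := h.nn D 1
    have : 0 ≤ B * z 1 := by positivity
    simp only [mul_zero, zero_add] at *
    linarith
  obtain ⟨c, hc, hlow⟩ := h.lower D
  -- b k = z (2k+2) ≥ 1
  have hb1 : ∀ k, 1 ≤ z (2 * k + 2) := by
    intro k
    rw [h.2.2.2 (2 * k)]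
    exact one_le_step (h.den D _) (hbad k).le
  set θ : ℝ := α / (α + 1) with hθ
  have hθ0 : 0 ≤ θ := by positivity
  have hθ1 : θ < 1 := by rw [hθ, div_lt_one (by linarith)]; linarith
  have hstep : ∀ k, z (2 * (k + 1) + 2) - 1 ≤ θ * (z (2 * k + 2) - 1) := by
    intro k
    have e1 : z (2 * (k + 1) + 2) = (α + z (2 * k + 2)) /
        (A + B * z (2 * k + 3) + z (2 * k + 2)) := by
      have := h.2.2.2 (2 * k + 2)
      rw [show 2 * (k + 1) + 2 = 2 * k + 2 + 2 by ring]
      exact this
    have e2 : z (2 * k + 3) = (α + z (2 * k + 1)) /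
        (A + B * z (2 * k + 2) + z (2 * k + 1)) := h.2.2.2 (2 * k + 1)
    have hd1 : 0 < A + B * z (2 * k + 3) + z (2 * k + 2) := h.den D (2 * k + 2)
    have hd2 : 0 < A + B * z (2 * k + 2) + z (2 * k + 1) := h.den D (2 * k + 1)
    have ha := h.nn D (2 * k + 1)
    have hb := hb1 k
    set a := z (2 * k + 1)
    set b := z (2 * k + 2)
    set a' := z (2 * k + 3)
    rw [e1]
    rw [sub_le_iff_le_add, div_le_iff₀ hd1]
    have e3 : a' * (A + B * b + a) = α + a := by rw [e2]; field_simp
    -- multiply by (A + B b + a)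
    have hgoal : (α + b) * (A + B * b + a)
        ≤ ((θ * (b - 1) + 1) * (A + B * a' + b)) * (A + B * b + a) := by
      have e4 : (A + B * a' + b) * (A + B * b + a) = (A + b) * (A + B * b + a) + B * (α + a) := by
        rw [← e3]; ring
      rw [mul_assoc, e4]
      have e5 : θ * (1 + α) = α := by rw [hθ]; field_simp; ring
      have h5 : 0 ≤ θ * (b - 1) := mul_nonneg hθ0 (by linarith)
      have h6 : B * (1 + α) ≤ (A + b) * (A + B * b + a) + B * (α + a) := by
        have : B * 1 ≤ (A + b) * (A + B * b + a) := by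
          have h7 : 1 ≤ A + b := by linarith
          have h8 : B ≤ A + B * b + a := by nlinarith
          nlinarith
        nlinarith
      have h7 : θ * (b - 1) * (B * (1 + α)) ≤
          θ * (b - 1) * ((A + b) * (A + B * b + a) + B * (α + a)) :=
        mul_le_mul_of_nonneg_left h6 h5
      have h8 : θ * (b - 1) * (B * (1 + α)) = B * α * (b - 1) := by
        rw [show θ * (b - 1) * (B * (1 + α)) = B * (b - 1) * (θ * (1 + α)) by ring, e5]; ring
      have h9 : (α + b) * (A + B * b + a) - ((A + b) * (A + B * b + a) + B * (α + a))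
          ≤ B * α * (b - 1) := by
        have h10 : (α + b) * (A + B * b + a) - ((A + b) * (A + B * b + a) + B * (α + a))
          = (α - A) * B * (b - 1) - (B + A - α) * (A + a) := by ring
        rw [h10]
        have h11 : 0 ≤ (B + A - α) * (A + a) := mul_nonneg (by linarith) (by linarith)
        have h12 : 0 ≤ A * B * (b - 1) := by
          apply mul_nonneg (by positivity); linarith
        nlinarith
      nlinarith
    exact le_of_mul_le_mul_right hgoal hd2
  have hgeo : ∀ k, z (2 * k + 2) - 1 ≤ θ ^ k * (z 2 - 1) := by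
    intro k
    induction k with
    | zero => simp
    | succ k ih =>
      calc z (2 * (k + 1) + 2) - 1 ≤ θ * (z (2 * k + 2) - 1) := hstep k
        _ ≤ θ * (θ ^ k * (z 2 - 1)) := mul_le_mul_of_nonneg_left ih hθ0
        _ = θ ^ (k + 1) * (z 2 - 1) := by ring
  -- badness of the next low point
  have hN : ∀ k, (B + A - α) * c ≤ (α - A) * B * (z (2 * (k + 1) + 2) - 1) := by
    intro k
    have e2 : z (2 * (k + 1) + 3) = (α + z (2 * (k + 1) + 1)) /
        (A + B * z (2 * (k + 1) + 2) + z (2 * (k + 1) + 1)) := h.2.2.2 (2 * (k + 1) + 1)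
    have hd2 : 0 < A + B * z (2 * (k + 1) + 2) + z (2 * (k + 1) + 1) := h.den D (2 * (k + 1) + 1)
    have hbd : A + B * z (2 * (k + 1) + 3) < α := hbad (k + 1 + 1)
    have hlo : c ≤ z (2 * (k + 1) + 1) := hlow (2 * k + 1)
    set a := z (2 * (k + 1) + 1)
    set b := z (2 * (k + 1) + 2)
    set a' := z (2 * (k + 1) + 3)
    have e3 : a' * (A + B * b + a) = α + a := by rw [e2]; field_simp
    have h1 : (A + B * a') * (A + B * b + a) < α * (A + B * b + a) :=
      mul_lt_mul_of_pos_right hbd hd2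
    have h2 : (A + B * a') * (A + B * b + a) = A * (A + B * b + a) + B * (α + a) := by
      rw [← e3]; ring
    have h3 : (B + A - α) * (A + a) ≤ (α - A) * B * (b - 1) := by nlinarith
    have h4 : (B + A - α) * c ≤ (B + A - α) * (A + a) :=
      mul_le_mul_of_nonneg_left (by linarith) (by linarith)
    linarith
  have hlim : Tendsto (fun k : ℕ => (α - A) * B * (θ ^ (k + 1) * (z 2 - 1))) atTop (𝓝 0) := by
    have h1 : Tendsto (fun k : ℕ => θ ^ (k + 1)) atTop (𝓝 0) :=
      (tendsto_add_atTop_iff_nat 1).2 (tendsto_pow_atTop_nhds_zero_of_lt_one hθ0 hθ1)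
    have h2 := (h1.mul_const (z 2 - 1)).const_mul ((α - A) * B)
    simpa using h2
  have hpos : 0 < (B + A - α) * c := mul_pos (by linarith) hc
  have := ge_of_tendsto' hlim (fun k => (hN k).trans
    (mul_le_mul_of_nonneg_left (hgeo (k + 1)) (mul_nonneg (by linarith) (by linarith))))
  linarith

theorem eventually_good (D : Dat α A B e m M) (h : IsSol α A B z) :
    ∃ N, ∀ n, N ≤ n → α ≤ A + B * z n := by
  -- an odd good index
  have hodd : ∃ j, α ≤ A + B * z (2 * j + 1) := by
    by_contra hc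
    push Not at hc
    exact all_bad_false D h hc
  have heven : ∃ j, α ≤ A + B * z (2 * j + 2) := by
    by_contra hc
    push Not at hc
    exact all_bad_false D (h.shift D 1) (fun k => hc k)
  obtain ⟨j, hj⟩ := hodd
  obtain ⟨l, hl⟩ := heven
  have h1 : ∀ i, α ≤ A + B * z (2 * (j + i) + 1) := by
    intro i
    induction i with
    | zero => exact hj
    | succ i ih =>
      have := good_persist D h (2 * (j + i)) ih
      rw [show 2 * (j + (i + 1)) + 1 = 2 * (j + i) + 3 by ring]
      exact this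
  have h2 : ∀ i, α ≤ A + B * z (2 * (l + i) + 2) := by
    intro i
    induction i with
    | zero => exact hl
    | succ i ih =>
      have := good_persist D h (2 * (l + i) + 1) ih
      rw [show 2 * (l + (i + 1)) + 2 = 2 * (l + i) + 1 + 3 by ring]
      exact this
  refine ⟨2 * (j + l) + 2, fun n hn => ?_⟩
  rcases Nat.even_or_odd' n with ⟨q, hq | hq⟩
  · obtain ⟨r, hr⟩ : ∃ r, q = l + r + 1 := ⟨q - l - 1, by omega⟩
    have := h2 r
    rw [hq, hr, show 2 * (l + r + 1) = 2 * (l + r) + 2 by ring]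
    exact this
  · obtain ⟨r, hr⟩ : ∃ r, q = j + r := ⟨q - j, by omega⟩
    have := h1 r
    rw [hq, hr]
    exact this

/-- Good solutions: eventually monotone even and odd subsequences. -/
theorem sub_conv (D : Dat α A B e m M) (h : IsSol α A B z) (hg : ∀ n, α ≤ A + B * z n) :
    ∃ n0 a b, Tendsto (fun k => z (n0 + 2 * k)) atTop (𝓝 a) ∧
      Tendsto (fun k => z (n0 + 2 * k + 1)) atTop (𝓝 b) := by
  have hα := D.hα
  have hB := D.hB
  obtain ⟨K, hK, hb⟩ := h.bdd D
  have s1 : ∀ n, z (n + 2) ≤ z n → z (n + 1) ≤ z (n + 3) → z (n + 4) ≤ z (n + 2) := by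
    intro n h1 h2
    have e1 := h.2.2.2 (n + 2)
    have e2 := h.2.2.2 n
    have e3 := step_le hα hB (h.den D (n + 2)) (h.den D n) h2 h1 (h.nn D _) (hg _)
    exact e1.trans_le (e3.trans_eq e2.symm)
  have s2 : ∀ n, z n ≤ z (n + 2) → z (n + 3) ≤ z (n + 1) → z (n + 2) ≤ z (n + 4) := by
    intro n h1 h2
    have e1 := h.2.2.2 (n + 2)
    have e2 := h.2.2.2 n
    have e3 := step_le hα hB (h.den D n) (h.den D (n + 2)) h2 h1 (h.nn D _) (hg _)
    exact e2.trans_le (e3.trans_eq e1.symm)
  -- convergence from monotonicity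
  have cm : ∀ n0, (∀ k, z (n0 + 2 * k) ≤ z (n0 + 2 * k + 2)) →
      ∃ a, Tendsto (fun k => z (n0 + 2 * k)) atTop (𝓝 a) := by
    intro n0 hm
    have hmono : Monotone (fun k => z (n0 + 2 * k)) := by
      apply monotone_nat_of_le_succ
      intro k
      have := hm k
      rw [show n0 + 2 * (k + 1) = n0 + 2 * k + 2 by ring]
      exact this
    exact ⟨_, tendsto_atTop_ciSup hmono ⟨K, by rintro _ ⟨k, rfl⟩; exact hb _⟩⟩
  have ca : ∀ n0, (∀ k, z (n0 + 2 * k + 2) ≤ z (n0 + 2 * k)) →
      ∃ a, Tendsto (fun k => z (n0 + 2 * k)) atTop (𝓝 a) := by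
    intro n0 hm
    have hanti : Antitone (fun k => z (n0 + 2 * k)) := by
      apply antitone_nat_of_succ_le
      intro k
      have := hm k
      rw [show n0 + 2 * (k + 1) = n0 + 2 * k + 2 by ring]
      exact this
    exact ⟨_, tendsto_atTop_ciInf hanti ⟨0, by rintro _ ⟨k, rfl⟩; exact h.nn D _⟩⟩
  have fin : ∀ n0 a b, Tendsto (fun k => z (n0 + 2 * k)) atTop (𝓝 a) →
      Tendsto (fun k => z (n0 + 1 + 2 * k)) atTop (𝓝 b) →
      Tendsto (fun k => z (n0 + 2 * k)) atTop (𝓝 a) ∧
      Tendsto (fun k => z (n0 + 2 * k + 1)) atTop (𝓝 b) := by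
    intro n0 a b h1 h2
    refine ⟨h1, ?_⟩
    have : (fun k => z (n0 + 2 * k + 1)) = (fun k => z (n0 + 1 + 2 * k)) := by
      funext k; congr 1; ring
    rw [this]; exact h2
  by_cases hc1 : ∃ n0, z (n0 + 2) ≤ z n0 ∧ z (n0 + 1) ≤ z (n0 + 3)
  · obtain ⟨n0, h1, h2⟩ := hc1
    have hall : ∀ k, z (n0 + 2 * k + 2) ≤ z (n0 + 2 * k) ∧
        z (n0 + 2 * k + 1) ≤ z (n0 + 2 * k + 3) := by
      intro k
      induction k with
      | zero => exact ⟨h1, h2⟩
      | succ k ih =>
        have h3 := s1 (n0 + 2 * k) ih.1 ih.2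
        have h4 := s2 (n0 + 2 * k + 1) ih.2 h3
        rw [show n0 + 2 * (k + 1) = n0 + 2 * k + 2 by ring]
        exact ⟨h3, h4⟩
    obtain ⟨a, ha⟩ := ca n0 (fun k => (hall k).1)
    obtain ⟨b, hb⟩ := cm (n0 + 1) (fun k => by
      have := (hall k).2
      rw [show n0 + 1 + 2 * k = n0 + 2 * k + 1 by ring]
      exact this)
    exact ⟨n0, a, b, fin n0 a b ha hb⟩
  by_cases hc2 : ∃ n0, z n0 ≤ z (n0 + 2) ∧ z (n0 + 3) ≤ z (n0 + 1)
  · obtain ⟨n0, h1, h2⟩ := hc2
    have hall : ∀ k, z (n0 + 2 * k) ≤ z (n0 + 2 * k + 2) ∧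
        z (n0 + 2 * k + 3) ≤ z (n0 + 2 * k + 1) := by
      intro k
      induction k with
      | zero => exact ⟨h1, h2⟩
      | succ k ih =>
        have h3 := s2 (n0 + 2 * k) ih.1 ih.2
        have h4 := s1 (n0 + 2 * k + 1) ih.2 h3
        rw [show n0 + 2 * (k + 1) = n0 + 2 * k + 2 by ring]
        exact ⟨h3, h4⟩
    obtain ⟨a, ha⟩ := cm n0 (fun k => (hall k).1)
    obtain ⟨b, hb⟩ := ca (n0 + 1) (fun k => by
      have := (hall k).2
      rw [show n0 + 1 + 2 * k = n0 + 2 * k + 1 by ring]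
      exact this)
    exact ⟨n0, a, b, fin n0 a b ha hb⟩
  push Not at hc1 hc2
  rcases le_total (z 2) (z 0) with h0 | h0
  · have hall : ∀ n, z (n + 2) ≤ z n := by
      intro n
      induction n with
      | zero => exact h0
      | succ n ih => exact (hc1 n ih).le
    obtain ⟨a, ha⟩ := ca 0 (fun k => hall _)
    obtain ⟨b, hb⟩ := ca 1 (fun k => hall _)
    exact ⟨0, a, b, fin 0 a b ha hb⟩
  · have hall : ∀ n, z n ≤ z (n + 2) := by
      intro n
      induction n with
      | zero => exact h0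
      | succ n ih => exact (hc2 n ih).le
    obtain ⟨a, ha⟩ := cm 0 (fun k => hall _)
    obtain ⟨b, hb⟩ := cm 1 (fun k => hall _)
    exact ⟨0, a, b, fin 0 a b ha hb⟩

/-- The even and the odd subsequence of every solution converge. -/
theorem sub_conv' (D : Dat α A B e m M) (h : IsSol α A B z) :
    ∃ a b, Tendsto (fun k => z (2 * k)) atTop (𝓝 a) ∧
      Tendsto (fun k => z (2 * k + 1)) atTop (𝓝 b) := by
  obtain ⟨N, hN⟩ := eventually_good D h
  obtain ⟨n0, a, b, ha, hb⟩ := sub_conv D (h.shift D N) (fun n => hN _ (Nat.le_add_left _ _))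
  rcases Nat.even_or_odd' (n0 + N) with ⟨q, hq | hq⟩
  · refine ⟨a, b, ?_, ?_⟩
    · rw [← tendsto_add_atTop_iff_nat q]
      convert ha using 2 with k
      congr 1
      omega
    · rw [← tendsto_add_atTop_iff_nat q]
      convert hb using 2 with k
      congr 1
      omega
  · refine ⟨b, a, ?_, ?_⟩
    · rw [← tendsto_add_atTop_iff_nat (q + 1)]
      convert hb using 2 with k
      congr 1
      omega
    · rw [← tendsto_add_atTop_iff_nat q]
      convert ha using 2 with k
      congr 1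
      omega

/-- `Up`: `x_{2k-1} → m`, `x_{2k} → M`. -/
def Up (m M : ℝ) (z : ℕ → ℝ) : Prop :=
  Tendsto (fun k => z (2 * k)) atTop (𝓝 m) ∧ Tendsto (fun k => z (2 * k + 1)) atTop (𝓝 M)

/-- `Wq`: convergence to the equilibrium. -/
def Wq (e : ℝ) (z : ℕ → ℝ) : Prop := Tendsto z atTop (𝓝 e)

theorem tendsto_of_parts {a : ℝ} (h1 : Tendsto (fun k => z (2 * k)) atTop (𝓝 a))
    (h2 : Tendsto (fun k => z (2 * k + 1)) atTop (𝓝 a)) : Tendsto z atTop (𝓝 a) := by
  rw [Metric.tendsto_atTop] at *
  intro ε hε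
  obtain ⟨N1, hN1⟩ := h1 ε hε
  obtain ⟨N2, hN2⟩ := h2 ε hε
  refine ⟨2 * (N1 + N2) + 1, fun n hn => ?_⟩
  rcases Nat.even_or_odd' n with ⟨q, hq | hq⟩
  · rw [hq]; exact hN1 q (by omega)
  · rw [hq]; exact hN2 q (by omega)

theorem tendsto_even {a : ℝ} (h : Tendsto z atTop (𝓝 a)) :
    Tendsto (fun k => z (2 * k)) atTop (𝓝 a) :=
  h.comp (tendsto_atTop_mono (fun k => by simp only [id]; omega) tendsto_id)

theorem tendsto_odd {a : ℝ} (h : Tendsto z atTop (𝓝 a)) :
    Tendsto (fun k => z (2 * k + 1)) atTop (𝓝 a) :=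
  h.comp (tendsto_atTop_mono (fun k => by simp only [id]; omega) tendsto_id)

/-- Trichotomy. -/
theorem trich (D : Dat α A B e m M) (h : IsSol α A B z) :
    Up m M z ∨ Up M m z ∨ Wq e z := by
  obtain ⟨a, b, ha, hb⟩ := sub_conv' D h
  have hα := D.hα
  have hB := D.hB
  have ha0 : 0 ≤ a := ge_of_tendsto' ha (fun k => h.nn D _)
  have hb0 : 0 ≤ b := ge_of_tendsto' hb (fun k => h.nn D _)
  have hrec : ∀ n, z (n + 2) * (A + B * z (n + 1) + z n) = α + z n := by
    intro n
    have := h.den D n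
    rw [h.2.2.2 n]; field_simp
  have ha' : Tendsto (fun k => z (2 * k + 2)) atTop (𝓝 a) := by
    have := (tendsto_add_atTop_iff_nat 1).2 ha
    exact this
  have hb' : Tendsto (fun k => z (2 * k + 3)) atTop (𝓝 b) := by
    have := (tendsto_add_atTop_iff_nat 1).2 hb
    exact this
  have e1 : a * (A + B * b + a) = α + a := by
    have t1 : Tendsto (fun k => z (2 * k + 2) * (A + B * z (2 * k + 1) + z (2 * k))) atTop
        (𝓝 (a * (A + B * b + a))) :=
      ha'.mul (((tendsto_const_nhds).add (hb.const_mul B)).add ha)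
    have t2 : Tendsto (fun k => α + z (2 * k)) atTop (𝓝 (α + a)) := tendsto_const_nhds.add ha
    refine tendsto_nhds_unique t1 (t2.congr (fun k => ?_))
    exact (hrec (2 * k)).symm
  have e2 : b * (A + B * a + b) = α + b := by
    have t1 : Tendsto (fun k => z (2 * k + 3) * (A + B * z (2 * k + 2) + z (2 * k + 1))) atTop
        (𝓝 (b * (A + B * a + b))) :=
      hb'.mul (((tendsto_const_nhds).add (ha'.const_mul B)).add hb)
    have t2 : Tendsto (fun k => α + z (2 * k + 1)) atTop (𝓝 (α + b)) :=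
      tendsto_const_nhds.add hb
    refine tendsto_nhds_unique t1 (t2.congr (fun k => ?_))
    exact (hrec (2 * k + 1)).symm
  have e3 : (a - b) * (A + a + b - 1) = 0 := by linear_combination e1 - e2
  have hs := D.hs
  have hp := D.hp
  rcases mul_eq_zero.1 e3 with hab | hab
  · right; right
    have hab' : b = a := by linarith
    subst hab'
    have heq := D.heq
    have e4 : (b - e) * ((1 + B) * (b + e) - (1 - A)) = 0 := by linear_combination e1 - heq
    have hbpos : 0 < b := by
      rcases hb0.lt_or_eq with hlt | hEq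
      · exact hlt
      · rw [← hEq] at e1; simp at e1; linarith
    have h5 : 0 < (1 + B) * e - (1 - A) := by
      have h6 : e * ((1 + B) * e - (1 - A)) = α := by linear_combination heq
      by_contra hc
      push Not at hc
      nlinarith [D.he]
    have h6 : (1 + B) * (b + e) - (1 - A) ≠ 0 := by
      have : 0 < (1 + B) * b := by positivity
      apply ne_of_gt
      nlinarith
    have h7 : b = e := by
      rcases mul_eq_zero.1 e4 with h | h
      · linarith
      · exact absurd h h6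
    subst h7
    exact tendsto_of_parts ha hb
  · have hb2 : b = 1 - A - a := by linarith
    have e4 : (a - m) * (a - M) = 0 := by
      have e5 : (B - 1) * (a * b) = (B - 1) * (m * M) := by
        rw [hp]
        linear_combination e1 - a * hab
      have hB1 : (B - 1) ≠ 0 := by linarith
      have e6 : a * b = m * M := mul_left_cancel₀ hB1 e5
      rw [hb2, ← hs] at e6
      linear_combination -e6
    rcases mul_eq_zero.1 e4 with h1 | h1
    · left
      have h2 : a = m := by linarith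
      have h3 : b = M := by linarith
      rw [h2] at ha; rw [h3] at hb
      exact ⟨ha, hb⟩
    · right; left
      have h2 : a = M := by linarith
      have h3 : b = m := by linarith
      rw [h2] at ha; rw [h3] at hb
      exact ⟨ha, hb⟩

/-! ### Growth of the difference of two ordered solutions -/

theorem growth {d : ℕ → ℝ} (h0 : ∀ n, 0 ≤ d n) (hl : Tendsto d atTop (𝓝 0)) {p q : ℝ}
    (hp : 0 < p) (hq : 0 < q) (hpq : 1 ≤ p + q) (hne : ∀ n, ¬ (d n = 0 ∧ d (n + 1) = 0))
    (hrec : ∀ᶠ n in atTop, p * d (n + 1) + q * d n ≤ d (n + 2)) : False := by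
  obtain ⟨N, hN⟩ := eventually_atTop.1 hrec
  have hpos2 : 0 < d (N + 2) := by
    have h1 := hN N le_rfl
    have h2 := hne N
    rcases (h0 N).lt_or_eq with h | h
    · have : 0 < q * d N := mul_pos hq h
      have : 0 ≤ p * d (N + 1) := mul_nonneg hp.le (h0 _)
      linarith
    · have h3 : d (N + 1) ≠ 0 := fun hc => h2 ⟨h.symm, hc⟩
      have h4 : 0 < d (N + 1) := lt_of_le_of_ne (h0 _) (Ne.symm h3)
      have : 0 ≤ q * d N := mul_nonneg hq.le (h0 _)
      have : 0 < p * d (N + 1) := mul_pos hp h4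
      linarith
  have hpos3 : 0 < d (N + 3) := by
    have h1 := hN (N + 1) (by omega)
    have h2 : 0 < p * d (N + 1 + 1) := mul_pos hp hpos2
    have h3 : 0 ≤ q * d (N + 1) := mul_nonneg hq.le (h0 _)
    have h4 : d (N + 1 + 2) = d (N + 3) := rfl
    linarith
  set μ := min (d (N + 2)) (d (N + 3)) with hμ
  have hμ0 : 0 < μ := lt_min hpos2 hpos3
  have hall : ∀ k, μ ≤ d (N + 2 + k) ∧ μ ≤ d (N + 3 + k) := by
    intro k
    induction k with
    | zero => exact ⟨min_le_left _ _, min_le_right _ _⟩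
    | succ k ih =>
      have h1 := hN (N + 2 + k) (by omega)
      rw [show N + 2 + k + 1 = N + 3 + k by ring, show N + 2 + k + 2 = N + 3 + (k + 1) by ring]
        at h1
      refine ⟨by rw [show N + 2 + (k + 1) = N + 3 + k by ring]; exact ih.2, ?_⟩
      have h2 : p * μ ≤ p * d (N + 3 + k) := mul_le_mul_of_nonneg_left ih.2 hp.le
      have h3 : q * μ ≤ q * d (N + 2 + k) := mul_le_mul_of_nonneg_left ih.1 hq.le
      nlinarith
  have hl' : Tendsto (fun k => d (N + 2 + k)) atTop (𝓝 0) := by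
    have := (tendsto_add_atTop_iff_nat (N + 2)).2 hl
    refine this.congr (fun k => ?_)
    rw [add_comm k]
  have := ge_of_tendsto' hl' (fun k => (hall k).1)
  linarith

theorem rec_formula (D : Dat α A B e m M) (hz : IsSol α A B z) (hw : IsSol α A B w) (n : ℕ)
    (h0 : z n ≤ w n) (h1 : w (n + 1) ≤ z (n + 1)) (hk : α < A + B * z (n + 1)) :
    |z (n + 2) - w (n + 2)| =
      |z (n + 1) - w (n + 1)| * (B * (α + z n) /
        ((A + B * z (n + 1) + z n) * (A + B * w (n + 1) + w n)))
      + |z n - w n| * ((A + B * z (n + 1) - α) /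
        ((A + B * z (n + 1) + z n) * (A + B * w (n + 1) + w n))) := by
  have hd1 := hz.den D n
  have hd2 := hw.den D n
  have e1 := diff_formula (α := α) hd1 hd2
  rw [← hz.2.2.2 n, ← hw.2.2.2 n] at e1
  have hzn := hz.nn D n
  have hα := D.hα
  have hB := D.hB
  have h5 : 0 ≤ (z (n + 1) - w (n + 1)) * (B * (α + z n)) :=
    mul_nonneg (by linarith) (mul_nonneg (by linarith) (by linarith))
  have h6 : 0 ≤ (w n - z n) * (A + B * z (n + 1) - α) := mul_nonneg (by linarith) (by linarith)
  have h7 : 0 ≤ w (n + 2) - z (n + 2) := by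
    rw [e1]; exact div_nonneg (by linarith) (by positivity)
  rw [abs_sub_comm (z (n + 2)), abs_of_nonneg h7, abs_of_nonneg (sub_nonneg.2 h1),
    abs_sub_comm (z n), abs_of_nonneg (sub_nonneg.2 h0), e1]
  ring

/-- Two solutions stay ordered, with alternating orientation. -/
def PP (α A B : ℝ) (z w : ℕ → ℝ) : Prop :=
  ∀ n, (z n ≤ w n ∧ w (n + 1) ≤ z (n + 1) ∧ α < A + B * z (n + 1)) ∨
    (w n ≤ z n ∧ z (n + 1) ≤ w (n + 1) ∧ α < A + B * w (n + 1))

theorem unique_of_PP (D : Dat α A B e m M) (hz : IsSol α A B z) (hw : IsSol α A B w)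
    (hp : PP α A B z w) (hze : Wq e z) (hwe : Wq e w) : z 0 = w 0 ∧ z 1 = w 1 := by
  by_contra hne0
  have hα := D.hα
  have hB := D.hB
  have hA := D.hA
  have he := D.he
  -- coefficient sequences
  have hz1 : Tendsto (fun n => z (n + 1)) atTop (𝓝 e) := (tendsto_add_atTop_iff_nat 1).2 hze
  have hw1 : Tendsto (fun n => w (n + 1)) atTop (𝓝 e) := (tendsto_add_atTop_iff_nat 1).2 hwe
  have hden : Tendsto (fun n => (A + B * z (n + 1) + z n) * (A + B * w (n + 1) + w n)) atTop
      (𝓝 ((A + B * e + e) * (A + B * e + e))) :=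
    (((tendsto_const_nhds).add (hz1.const_mul B)).add hze).mul
      (((tendsto_const_nhds).add (hw1.const_mul B)).add hwe)
  have hd : 0 < A + B * e + e := by positivity
  have hdd : (A + B * e + e) * (A + B * e + e) ≠ 0 := by positivity
  set P : ℝ := B * (α + e) / ((A + B * e + e) * (A + B * e + e)) with hP
  set Q : ℝ := (A + B * e - α) / ((A + B * e + e) * (A + B * e + e)) with hQ
  have hkp := D.hkpos
  have hP0 : 0 < P := by rw [hP]; positivity
  have hQ0 : 0 < Q := by
    rw [hQ]; exact div_pos (by linarith) (by positivity)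
  have hPQ : 1 < P + Q := by
    rw [hP, hQ, ← add_div, lt_div_iff₀ (by positivity), D.hden, D.hk]
    have h1 : 0 < (A + B * e + e) * (1 - A - 2 * e) := mul_pos hd (by linarith [D.he2])
    nlinarith
  have tP1 : Tendsto (fun n => B * (α + z n) /
      ((A + B * z (n + 1) + z n) * (A + B * w (n + 1) + w n))) atTop (𝓝 P) :=
    ((tendsto_const_nhds.add hze).const_mul B).div hden hdd
  have tP2 : Tendsto (fun n => B * (α + w n) /
      ((A + B * z (n + 1) + z n) * (A + B * w (n + 1) + w n))) atTop (𝓝 P) :=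
    ((tendsto_const_nhds.add hwe).const_mul B).div hden hdd
  have tQ1 : Tendsto (fun n => (A + B * z (n + 1) - α) /
      ((A + B * z (n + 1) + z n) * (A + B * w (n + 1) + w n))) atTop (𝓝 Q) :=
    ((tendsto_const_nhds.add (hz1.const_mul B)).sub tendsto_const_nhds).div hden hdd
  have tQ2 : Tendsto (fun n => (A + B * w (n + 1) - α) /
      ((A + B * z (n + 1) + z n) * (A + B * w (n + 1) + w n))) atTop (𝓝 Q) :=
    ((tendsto_const_nhds.add (hw1.const_mul B)).sub tendsto_const_nhds).div hden hdd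
  obtain ⟨p, q, hp0, hq0, hpP, hqQ, hpq⟩ : ∃ p q : ℝ, 0 < p ∧ 0 < q ∧ p < P ∧ q < Q ∧
      1 ≤ p + q := by
    refine ⟨P - min (P / 2) (min (Q / 2) ((P + Q - 1) / 2)),
      Q - min (P / 2) (min (Q / 2) ((P + Q - 1) / 2)), ?_, ?_, ?_, ?_, ?_⟩
    · have := min_le_left (P / 2) (min (Q / 2) ((P + Q - 1) / 2)); linarith
    · have := (min_le_right (P / 2) (min (Q / 2) ((P + Q - 1) / 2))).trans (min_le_left _ _)
      linarith
    · have : 0 < min (P / 2) (min (Q / 2) ((P + Q - 1) / 2)) :=
        lt_min (by linarith) (lt_min (by linarith) (by linarith))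
      linarith
    · have : 0 < min (P / 2) (min (Q / 2) ((P + Q - 1) / 2)) :=
        lt_min (by linarith) (lt_min (by linarith) (by linarith))
      linarith
    · have := (min_le_right (P / 2) (min (Q / 2) ((P + Q - 1) / 2))).trans (min_le_right _ _)
      linarith
  -- the recurrence in both orientations
  have hrecAll : ∀ n, (|z (n + 2) - w (n + 2)| =
      |z (n + 1) - w (n + 1)| * (B * (α + z n) /
        ((A + B * z (n + 1) + z n) * (A + B * w (n + 1) + w n)))
      + |z n - w n| * ((A + B * z (n + 1) - α) /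
        ((A + B * z (n + 1) + z n) * (A + B * w (n + 1) + w n))) ∧
        α < A + B * z (n + 1)) ∨
      (|z (n + 2) - w (n + 2)| =
      |z (n + 1) - w (n + 1)| * (B * (α + w n) /
        ((A + B * z (n + 1) + z n) * (A + B * w (n + 1) + w n)))
      + |z n - w n| * ((A + B * w (n + 1) - α) /
        ((A + B * z (n + 1) + z n) * (A + B * w (n + 1) + w n))) ∧
        α < A + B * w (n + 1)) := by
    intro n
    rcases hp n with ⟨h1, h2, h3⟩ | ⟨h1, h2, h3⟩
    · left
      exact ⟨rec_formula D hz hw n h1 h2 h3, h3⟩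
    · right
      refine ⟨?_, h3⟩
      have := rec_formula D hw hz n h1 h2 h3
      rw [abs_sub_comm (w (n + 2)), abs_sub_comm (w (n + 1)), abs_sub_comm (w n),
        mul_comm (A + B * w (n + 1) + w n)] at this
      exact this
  refine growth (d := fun n => |z n - w n|) (fun n => abs_nonneg _) ?_ hp0 hq0 hpq ?_ ?_
  · have := (hze.sub hwe).abs
    simpa using this
  · intro n
    induction n with
    | zero =>
      rintro ⟨h1, h2⟩
      apply hne0
      exact ⟨sub_eq_zero.1 (abs_eq_zero.1 h1), sub_eq_zero.1 (abs_eq_zero.1 h2)⟩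
    | succ n ih =>
      rintro ⟨h1, h2⟩
      apply ih
      refine ⟨?_, h1⟩
      have hd1 := hz.den D n
      have hd2 := hw.den D n
      have h2' : |z (n + 2) - w (n + 2)| = 0 := h2
      rcases hrecAll n with ⟨h3, h4⟩ | ⟨h3, h4⟩
      · rw [h2', h1, zero_mul, zero_add] at h3
        have h5 : (A + B * z (n + 1) - α) /
          ((A + B * z (n + 1) + z n) * (A + B * w (n + 1) + w n)) ≠ 0 :=
          (div_pos (by linarith) (by positivity)).ne'
        rcases mul_eq_zero.1 h3.symm with h6 | h6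
        · exact h6
        · exact absurd h6 h5
      · rw [h2', h1, zero_mul, zero_add] at h3
        have h5 : (A + B * w (n + 1) - α) /
          ((A + B * z (n + 1) + z n) * (A + B * w (n + 1) + w n)) ≠ 0 :=
          (div_pos (by linarith) (by positivity)).ne'
        rcases mul_eq_zero.1 h3.symm with h6 | h6
        · exact h6
        · exact absurd h6 h5
  · filter_upwards [tP1.eventually_const_lt hpP, tP2.eventually_const_lt hpP,
      tQ1.eventually_const_lt hqQ, tQ2.eventually_const_lt hqQ] with n a1 a2 a3 a4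
    rcases hrecAll n with ⟨h3, h4⟩ | ⟨h3, h4⟩
    · rw [h3]
      have h5 := mul_le_mul_of_nonneg_left a1.le (abs_nonneg (z (n + 1) - w (n + 1)))
      have h6 := mul_le_mul_of_nonneg_left a3.le (abs_nonneg (z n - w n))
      linarith
    · rw [h3]
      have h5 := mul_le_mul_of_nonneg_left a2.le (abs_nonneg (z (n + 1) - w (n + 1)))
      have h6 := mul_le_mul_of_nonneg_left a4.le (abs_nonneg (z n - w n))
      linarith

/-! ### Solutions around the equilibrium -/

theorem up_shift_even {a b : ℝ} {j : ℕ} (h : Up a b (fun k => z (k + 2 * j))) : Up a b z := by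
  refine ⟨?_, ?_⟩
  · rw [← tendsto_add_atTop_iff_nat j]
    refine h.1.congr (fun k => ?_)
    show z (2 * k + 2 * j) = z (2 * (k + j))
    congr 1; ring
  · rw [← tendsto_add_atTop_iff_nat j]
    refine h.2.congr (fun k => ?_)
    show z (2 * k + 1 + 2 * j) = z (2 * (k + j) + 1)
    congr 1; ring

theorem up_shift_odd {a b : ℝ} {j : ℕ} (h : Up a b (fun k => z (k + (2 * j + 1)))) :
    Up b a z := by
  refine ⟨?_, ?_⟩
  · rw [← tendsto_add_atTop_iff_nat (j + 1)]
    refine h.2.congr (fun k => ?_)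
    show z (2 * k + 1 + (2 * j + 1)) = z (2 * (k + (j + 1)))
    congr 1; ring
  · rw [← tendsto_add_atTop_iff_nat j]
    refine h.1.congr (fun k => ?_)
    show z (2 * k + (2 * j + 1)) = z (2 * (k + j) + 1)
    congr 1; ring

theorem shift_up {a b : ℝ} (h : Up a b z) : Up b a (fun k => z (k + 1)) := by
  refine ⟨h.2, ?_⟩
  have := (tendsto_add_atTop_iff_nat 1).2 h.1
  exact this

theorem isSol_const (D : Dat α A B e m M) : IsSol α A B (fun _ => e) := by
  have hB := D.hB
  have hA := D.hA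
  have he := D.he
  have hd : 0 < A + B * e + e := by positivity
  refine ⟨he.le, he.le, hd, fun n => ?_⟩
  rw [D.hden]
  field_simp

theorem q_step1 (D : Dat α A B e m M) (hz : IsSol α A B z) {n : ℕ} (h0 : z n ≤ e)
    (h1 : e ≤ z (n + 1)) : z (n + 2) ≤ e := by
  have hc := isSol_const D
  have hk : α ≤ A + B * z (n + 1) := by
    have := D.hkpos
    have := mul_le_mul_of_nonneg_left h1 (by linarith [D.hB] : (0 : ℝ) ≤ B)
    linarith
  have := step_le D.hα D.hB (hz.den D n) (hc.den D n) h1 h0 (hz.nn D n) hk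
  rw [← hz.2.2.2 n, ← hc.2.2.2 n] at this
  exact this

theorem q_step2 (D : Dat α A B e m M) (hz : IsSol α A B z) {n : ℕ} (h0 : e ≤ z n)
    (h1 : z (n + 1) ≤ e) : e ≤ z (n + 2) := by
  have hc := isSol_const D
  have := step_le D.hα D.hB (hc.den D n) (hz.den D n) h1 h0 (hc.nn D n) D.hkpos.le
  rw [← hz.2.2.2 n, ← hc.2.2.2 n] at this
  exact this

theorem q_up (D : Dat α A B e m M) (hz : IsSol α A B z) (h0 : z 0 ≤ e) (h1 : e ≤ z 1)
    (hne : ¬ (z 0 = e ∧ z 1 = e)) : Up m M z := by
  have hall : ∀ k, z (2 * k) ≤ e ∧ e ≤ z (2 * k + 1) := by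
    intro k
    induction k with
    | zero => exact ⟨h0, h1⟩
    | succ k ih =>
      have h2 := q_step1 D hz ih.1 ih.2
      have h3 := q_step2 D hz ih.2 h2
      exact ⟨h2, h3⟩
  rcases trich D hz with h | h | h
  · exact h
  · have := le_of_tendsto' h.1 (fun k => (hall k).1)
    linarith [D.heM]
  · exfalso
    apply hne
    refine unique_of_PP D hz (isSol_const D) ?_ h tendsto_const_nhds
    intro n
    have hk := D.hkpos
    rcases Nat.even_or_odd' n with ⟨q, hq | hq⟩
    · left
      subst hq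
      refine ⟨(hall q).1, (hall q).2, ?_⟩
      have := mul_le_mul_of_nonneg_left (hall q).2 (by linarith [D.hB] : (0 : ℝ) ≤ B)
      linarith
    · right
      subst hq
      exact ⟨(hall q).2, (hall (q + 1)).1, hk⟩

theorem q_dn (D : Dat α A B e m M) (hz : IsSol α A B z) (h0 : e ≤ z 0) (h1 : z 1 ≤ e)
    (hne : ¬ (z 0 = e ∧ z 1 = e)) : Up M m z := by
  have hall : ∀ k, e ≤ z (2 * k) ∧ z (2 * k + 1) ≤ e := by
    intro k
    induction k with
    | zero => exact ⟨h0, h1⟩
    | succ k ih =>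
      have h2 := q_step2 D hz ih.1 ih.2
      have h3 := q_step1 D hz ih.2 h2
      exact ⟨h2, h3⟩
  rcases trich D hz with h | h | h
  · have := ge_of_tendsto' h.1 (fun k => (hall k).1)
    linarith [D.hme]
  · exact h
  · exfalso
    apply hne
    refine unique_of_PP D hz (isSol_const D) ?_ h tendsto_const_nhds
    intro n
    have hk := D.hkpos
    rcases Nat.even_or_odd' n with ⟨q, hq | hq⟩
    · right
      subst hq
      exact ⟨(hall q).1, (hall q).2, hk⟩
    · left
      subst hq
      refine ⟨(hall q).2, (hall (q + 1)).1, ?_⟩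
      have := mul_le_mul_of_nonneg_left (hall (q + 1)).1 (by linarith [D.hB] : (0 : ℝ) ≤ B)
      have h4 : B * z (2 * q + 1 + 1) = B * z (2 * (q + 1)) := rfl
      linarith

/-- Class at an even index. -/
theorem class_even (D : Dat α A B e m M) (hz : IsSol α A B z) {j : ℕ} (h0 : z (2 * j) < e)
    (h1 : e < z (2 * j + 1)) : Up m M z := by
  refine up_shift_even (j := j) (q_up D (hz.shift D _) ?_ ?_ ?_)
  · simpa using h0.le
  · rw [add_comm]; exact h1.le
  · rintro ⟨h2, -⟩
    simp only [zero_add] at h2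
    exact h0.ne h2

theorem class_odd (D : Dat α A B e m M) (hz : IsSol α A B z) {j : ℕ} (h0 : z (2 * j + 1) < e)
    (h1 : e < z (2 * j + 2)) : Up M m z := by
  refine up_shift_odd (j := j) (q_up D (hz.shift D _) ?_ ?_ ?_)
  · simpa using h0.le
  · rw [add_comm]; exact h1.le
  · rintro ⟨h2, -⟩
    simp only [zero_add] at h2
    exact h0.ne h2

theorem class_even' (D : Dat α A B e m M) (hz : IsSol α A B z) {j : ℕ} (h0 : e < z (2 * j))
    (h1 : z (2 * j + 1) < e) : Up M m z := by
  refine up_shift_even (j := j) (q_dn D (hz.shift D _) ?_ ?_ ?_)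
  · simpa using h0.le
  · rw [add_comm]; exact h1.le
  · rintro ⟨h2, -⟩
    simp only [zero_add] at h2
    exact h0.ne' h2

theorem up_ne (D : Dat α A B e m M) (h1 : Up m M z) (h2 : Up M m z) : False := by
  have := tendsto_nhds_unique h1.1 h2.1
  linarith [D.hmM]

theorem up_nw (D : Dat α A B e m M) (h1 : Up m M z) (h2 : Wq e z) : False := by
  have := tendsto_nhds_unique h1.1 (tendsto_even h2)
  linarith [D.hme]

theorem dn_nw (D : Dat α A B e m M) (h1 : Up M m z) (h2 : Wq e z) : False := by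
  have := tendsto_nhds_unique h1.1 (tendsto_even h2)
  linarith [D.heM]

theorem order_step (D : Dat α A B e m M) (hz : IsSol α A B z) (hw : IsSol α A B w) {n : ℕ}
    (h0 : z n ≤ w n) (h1 : w (n + 1) ≤ z (n + 1)) :
    (α < A + B * z (n + 1) ∧ z (n + 2) ≤ w (n + 2)) ∨
      ((z (n + 1) < e ∧ e < z (n + 2)) ∧ (w (n + 1) < e ∧ e < w (n + 2))) := by
  rcases lt_or_ge α (A + B * z (n + 1)) with hk | hk
  · left
    refine ⟨hk, ?_⟩
    have := step_le D.hα D.hB (hz.den D n) (hw.den D n) h1 h0 (hz.nn D n) hk.le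
    rw [← hz.2.2.2 n, ← hw.2.2.2 n] at this
    exact this
  · right
    have hB : 0 < B := by linarith [D.hB]
    have hkp := D.hkpos
    have h2 : z (n + 1) < e := by
      by_contra hc
      push Not at hc
      have := mul_le_mul_of_nonneg_left hc hB.le
      linarith
    have hk' : A + B * w (n + 1) ≤ α := by
      have := mul_le_mul_of_nonneg_left h1 hB.le
      linarith
    have h3 := one_le_step (hz.den D n) hk
    have h4 := one_le_step (hw.den D n) hk'
    rw [← hz.2.2.2 n] at h3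
    rw [← hw.2.2.2 n] at h4
    have := D.he1
    exact ⟨⟨h2, by linarith⟩, by linarith, by linarith⟩

theorem dich (D : Dat α A B e m M) (hz : IsSol α A B z) (hw : IsSol α A B w)
    (h0 : z 0 ≤ w 0) (h1 : w 1 ≤ z 1) :
    (∀ k, z (2 * k) ≤ w (2 * k) ∧ w (2 * k + 1) ≤ z (2 * k + 1) ∧ α < A + B * z (2 * k + 1) ∧
      z (2 * k + 2) ≤ w (2 * k + 2) ∧ α < A + B * w (2 * k + 2)) ∨
    (Up m M z ∧ Up m M w) ∨ (Up M m z ∧ Up M m w) := by
  by_cases hs1 : Up m M z ∧ Up m M w
  · exact Or.inr (Or.inl hs1)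
  by_cases hs2 : Up M m z ∧ Up M m w
  · exact Or.inr (Or.inr hs2)
  left
  have key : ∀ k, z (2 * k) ≤ w (2 * k) → w (2 * k + 1) ≤ z (2 * k + 1) →
      (z (2 * k) ≤ w (2 * k) ∧ w (2 * k + 1) ≤ z (2 * k + 1) ∧ α < A + B * z (2 * k + 1) ∧
      z (2 * k + 2) ≤ w (2 * k + 2) ∧ α < A + B * w (2 * k + 2)) ∧
      w (2 * k + 3) ≤ z (2 * k + 3) := by
    intro k ha hb
    rcases order_step D hz hw ha hb with ⟨h2, h3⟩ | ⟨⟨h2, h3⟩, ⟨h4, h5⟩⟩
    · rcases order_step D hw hz (n := 2 * k + 1) hb h3 with ⟨h6, h7⟩ | ⟨⟨h6, h7⟩, ⟨h8, h9⟩⟩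
      · exact ⟨⟨ha, hb, h2, h3, h6⟩, h7⟩
      · exact absurd ⟨class_even D hz (j := k + 1) h8 h9, class_even D hw (j := k + 1) h6 h7⟩ hs1
    · exact absurd ⟨class_odd D hz h2 h3, class_odd D hw h4 h5⟩ hs2
  have hall : ∀ k, z (2 * k) ≤ w (2 * k) ∧ w (2 * k + 1) ≤ z (2 * k + 1) := by
    intro k
    induction k with
    | zero => exact ⟨h0, h1⟩
    | succ k ih =>
      have := key k ih.1 ih.2
      exact ⟨this.1.2.2.2.1, this.2⟩
  exact fun k => (key k (hall k).1 (hall k).2).1

theorem mono_up (D : Dat α A B e m M) (hz : IsSol α A B z) (hw : IsSol α A B w)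
    (h0 : z 0 ≤ w 0) (h1 : w 1 ≤ z 1) (h : Up m M w) : Up m M z := by
  rcases dich D hz hw h0 h1 with h2 | h2 | h2
  · rcases trich D hz with h3 | h3 | h3
    · exact h3
    · have := le_of_tendsto_of_tendsto' h3.1 h.1 (fun k => (h2 k).1)
      linarith [D.hmM]
    · have := le_of_tendsto_of_tendsto' (tendsto_even h3) h.1 (fun k => (h2 k).1)
      linarith [D.hme]
  · exact h2.1
  · exact (up_ne D h h2.2).elim

theorem mono_dn (D : Dat α A B e m M) (hz : IsSol α A B z) (hw : IsSol α A B w)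
    (h0 : z 0 ≤ w 0) (h1 : w 1 ≤ z 1) (h : Up M m z) : Up M m w := by
  rcases dich D hz hw h0 h1 with h2 | h2 | h2
  · rcases trich D hw with h3 | h3 | h3
    · have := le_of_tendsto_of_tendsto' h.1 h3.1 (fun k => (h2 k).1)
      linarith [D.hmM]
    · exact h3
    · have := le_of_tendsto_of_tendsto' h.1 (tendsto_even h3) (fun k => (h2 k).1)
      linarith [D.heM]
  · exact (up_ne D h2.1 h).elim
  · exact h2.2

theorem w_unique (D : Dat α A B e m M) (hz : IsSol α A B z) (hw : IsSol α A B w)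
    (h0 : z 0 ≤ w 0) (h1 : w 1 ≤ z 1) (h2 : Wq e z) (h3 : Wq e w) : z 0 = w 0 ∧ z 1 = w 1 := by
  rcases dich D hz hw h0 h1 with h4 | h4 | h4
  · refine unique_of_PP D hz hw (fun n => ?_) h2 h3
    rcases Nat.even_or_odd' n with ⟨q, hq | hq⟩
    · left; subst hq
      exact ⟨(h4 q).1, (h4 q).2.1, (h4 q).2.2.1⟩
    · right; subst hq
      exact ⟨(h4 q).2.1, (h4 q).2.2.2.1, (h4 q).2.2.2.2⟩
  · exact (up_nw D h4.1 h2).elim
  · exact (dn_nw D h4.1 h2).elim

end sols

/-! ### The curve -/

/-- Admissible initial pairs. -/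
def Adm (A B : ℝ) : Set (ℝ × ℝ) := {p | 0 ≤ p.1 ∧ 0 ≤ p.2 ∧ 0 < A + B * p.2 + p.1}

theorem isSol_sol {x y : ℝ} (h : (x, y) ∈ Adm A B) : IsSol α A B (sol α A B x y) :=
  ⟨h.1, h.2.1, h.2.2, fun _ => rfl⟩

theorem cont_sol (D : Dat α A B e m M) (n : ℕ) :
    ContinuousOn (fun p : ℝ × ℝ => sol α A B p.1 p.2 n) (Adm A B) ∧
    ContinuousOn (fun p : ℝ × ℝ => sol α A B p.1 p.2 (n + 1)) (Adm A B) := by
  induction n with
  | zero => exact ⟨continuous_fst.continuousOn, continuous_snd.continuousOn⟩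
  | succ n ih =>
    refine ⟨ih.2, ?_⟩
    have : (fun p : ℝ × ℝ => sol α A B p.1 p.2 (n + 1 + 1)) =
        fun p : ℝ × ℝ => (α + sol α A B p.1 p.2 n) /
          (A + B * sol α A B p.1 p.2 (n + 1) + sol α A B p.1 p.2 n) := rfl
    rw [this]
    apply ContinuousOn.div
    · exact continuousOn_const.add ih.1
    · exact (continuousOn_const.add (continuousOn_const.mul ih.2)).add ih.1
    · rintro ⟨x, y⟩ hp
      exact ((isSol_sol (α := α) hp).den D n).ne'

theorem up_open (D : Dat α A B e m M) {x y : ℝ} (h : (x, y) ∈ Adm A B)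
    (hu : Up m M (sol α A B x y)) :
    ∀ᶠ p in 𝓝[Adm A B] (x, y), Up m M (sol α A B p.1 p.2) := by
  have h1 := hu.1.eventually_lt_const D.hme
  have h2 := hu.2.eventually_const_lt D.heM
  obtain ⟨k, hk1, hk2⟩ := (h1.and h2).exists
  have c1 := (cont_sol D (2 * k)).1 (x, y) h
  have c2 := (cont_sol D (2 * k)).2 (x, y) h
  have e1 := c1.tendsto.eventually_lt_const hk1
  have e2 := c2.tendsto.eventually_const_lt hk2
  filter_upwards [e1, e2, eventually_mem_nhdsWithin] with p h3 h4 h5
  exact class_even D (isSol_sol (x := p.1) (y := p.2) h5) h3 h4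

theorem dn_open (D : Dat α A B e m M) {x y : ℝ} (h : (x, y) ∈ Adm A B)
    (hu : Up M m (sol α A B x y)) :
    ∀ᶠ p in 𝓝[Adm A B] (x, y), Up M m (sol α A B p.1 p.2) := by
  have h1 := hu.1.eventually_const_lt D.heM
  have h2 := hu.2.eventually_lt_const D.hme
  obtain ⟨k, hk1, hk2⟩ := (h1.and h2).exists
  have c1 := (cont_sol D (2 * k)).1 (x, y) h
  have c2 := (cont_sol D (2 * k)).2 (x, y) h
  have e1 := c1.tendsto.eventually_const_lt hk1
  have e2 := c2.tendsto.eventually_lt_const hk2
  filter_upwards [e1, e2, eventually_mem_nhdsWithin] with p h3 h4 h5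
  exact class_even' D (isSol_sol (x := p.1) (y := p.2) h5) h3 h4

theorem adm_of_pos (D : Dat α A B e m M) {x y : ℝ} (hx : 0 ≤ x) (hy : 0 < y) :
    (x, y) ∈ Adm A B := by
  have : 0 < B * y := mul_pos (by linarith [D.hB]) hy
  have := D.hA
  exact ⟨hx, hy.le, by simp only; linarith⟩

theorem up_mono (D : Dat α A B e m M) {x y x' y' : ℝ} (h : (x, y) ∈ Adm A B)
    (h' : (x', y') ∈ Adm A B) (hx : x' ≤ x) (hy : y ≤ y') (hu : Up m M (sol α A B x y)) :
    Up m M (sol α A B x' y') :=
  mono_up D (isSol_sol h') (isSol_sol h) hx hy hu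

theorem dn_mono (D : Dat α A B e m M) {x y x' y' : ℝ} (h : (x, y) ∈ Adm A B)
    (h' : (x', y') ∈ Adm A B) (hx : x ≤ x') (hy : y' ≤ y) (hu : Up M m (sol α A B x y)) :
    Up M m (sol α A B x' y') :=
  mono_dn D (isSol_sol h) (isSol_sol h') hx hy hu

theorem w_uniq (D : Dat α A B e m M) {x y x' y' : ℝ} (h : (x, y) ∈ Adm A B)
    (h' : (x', y') ∈ Adm A B) (hx : x ≤ x') (hy : y' ≤ y) (hw : Wq e (sol α A B x y))
    (hw' : Wq e (sol α A B x' y')) : x = x' ∧ y = y' :=
  w_unique D (isSol_sol h) (isSol_sol h') hx hy hw hw'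

/-- Near an admissible point of the vertical line, on the positive side. -/
theorem vert {x y : ℝ} {P : ℝ × ℝ → Prop} (D : Dat α A B e m M)
    (h : ∀ᶠ p in 𝓝[Adm A B] (x, y), P p) (hx : 0 ≤ x) :
    ∀ᶠ t in 𝓝[Ioi 0] y, P (x, t) := by
  have h1 : Tendsto (fun t : ℝ => (x, t)) (𝓝[Ioi 0] y) (𝓝[Adm A B] (x, y)) := by
    apply tendsto_nhdsWithin_iff.2
    refine ⟨?_, ?_⟩
    · exact (Continuous.tendsto (by fun_prop) y).mono_left nhdsWithin_le_nhds
    · filter_upwards [self_mem_nhdsWithin] with t ht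
      exact adm_of_pos D hx ht
  exact h1.eventually h

theorem exists_dn (D : Dat α A B e m M) {x : ℝ} (hx : 0 ≤ x) :
    ∃ y, 0 < y ∧ Up M m (sol α A B x y) := by
  have hA := D.hA
  rcases (by positivity : 0 ≤ A + x).lt_or_eq with hAx | hAx
  · have hadm : (x, 0) ∈ Adm A B := ⟨hx, le_rfl, by simpa using hAx⟩
    have hz := isSol_sol (α := α) hadm
    have hw := hz.shift D 1
    have hpos := hz.pos D 0
    have hdn : Up M m (sol α A B x 0) := by
      have h0 : (fun n => sol α A B x 0 (n + 1)) 0 ≤ sol α A B x 0 0 := hx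
      have h1 : sol α A B x 0 1 ≤ (fun n => sol α A B x 0 (n + 1)) 1 := hpos.le
      rcases trich D hz with h | h | h
      · have h2 := mono_up D hw hz h0 h1 h
        exact (up_ne D h2 (shift_up h)).elim
      · exact h
      · have h2 : Wq e (fun n => sol α A B x 0 (n + 1)) := (tendsto_add_atTop_iff_nat 1).2 h
        have h3 := (w_unique D hw hz h0 h1 h2 h).2
        have h4 : sol α A B x 0 2 = 0 := h3
        exact absurd h4 hpos.ne'
    have h5 := vert D (dn_open D hadm hdn) hx
    obtain ⟨y, hy1, hy2⟩ := (h5.and self_mem_nhdsWithin).exists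
    exact ⟨y, hy2, hy1⟩
  · have hA0 : A = 0 := by linarith
    have hx0 : x = 0 := by linarith
    subst hA0 hx0
    have hα := D.hα
    have hB := D.hB
    have hB0 : B ≠ 0 := by linarith
    have hy : 0 < α / (2 * B) := by positivity
    have hadm : ((0 : ℝ), α / (2 * B)) ∈ Adm 0 B := adm_of_pos D le_rfl hy
    have hz := isSol_sol (α := α) hadm
    have hBy : B * (α / (2 * B)) = α / 2 := by field_simp
    refine ⟨α / (2 * B), hy, class_odd D hz (j := 0) ?_ ?_⟩
    · show α / (2 * B) < e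
      have := D.hkpos
      rw [div_lt_iff₀ (by linarith)]
      nlinarith
    · have h1 := one_le_step (α := α) (hz.den D 0) (by
        show (0 : ℝ) + B * (α / (2 * B)) ≤ α
        rw [hBy]; linarith)
      rw [← hz.2.2.2 0] at h1
      exact lt_of_lt_of_le D.he1 h1

theorem exists_up (D : Dat α A B e m M) {x : ℝ} (hx : 0 ≤ x) :
    ∃ y, 0 < y ∧ Up m M (sol α A B x y) := by
  have hα := D.hα
  have hB := D.hB
  have hA := D.hA
  have he := D.he
  have hy : 0 < e + (α + x) / (B * e) := by positivity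
  have hadm := adm_of_pos D hx hy
  have hz := isSol_sol (α := α) hadm
  refine ⟨_, hy, up_shift_odd (j := 0) (q_dn D (hz.shift D _) ?_ ?_ ?_)⟩
  · show e ≤ e + (α + x) / (B * e)
    have : 0 < (α + x) / (B * e) := by positivity
    linarith
  · show sol α A B x (e + (α + x) / (B * e)) 2 ≤ e
    rw [hz.2.2.2 0, div_le_iff₀ (hz.den D 0)]
    show α + x ≤ e * (A + B * (e + (α + x) / (B * e)) + x)
    have h1 : e * (B * ((α + x) / (B * e))) = α + x := by field_simp
    have h2 : 0 ≤ e * A := by positivity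
    have h3 : 0 ≤ e * (B * e) := by positivity
    have h4 : 0 ≤ e * x := by positivity
    nlinarith
  · rintro ⟨h1, -⟩
    have h2 : e + (α + x) / (B * e) = e := h1
    have : 0 < (α + x) / (B * e) := by positivity
    linarith

/-- The curve. -/
noncomputable def phi (α A B m M x : ℝ) : ℝ := sSup {y | 0 < y ∧ Up M m (sol α A B x y)}

theorem phi_bdd (D : Dat α A B e m M) {x : ℝ} (hx : 0 ≤ x) :
    BddAbove {y | 0 < y ∧ Up M m (sol α A B x y)} := by
  obtain ⟨y2, hy2, hu⟩ := exists_up D hx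
  refine ⟨y2, ?_⟩
  rintro y ⟨hy, hd⟩
  by_contra hc
  push Not at hc
  exact up_ne D (up_mono D (adm_of_pos D hx hy2) (adm_of_pos D hx hy) le_rfl hc.le hu) hd

theorem phi_pos (D : Dat α A B e m M) {x : ℝ} (hx : 0 ≤ x) : 0 < phi α A B m M x := by
  obtain ⟨y1, hy1, hd⟩ := exists_dn D hx
  exact lt_of_lt_of_le hy1 (le_csSup (phi_bdd D hx) ⟨hy1, hd⟩)

theorem dn_of_lt (D : Dat α A B e m M) {x y : ℝ} (h : (x, y) ∈ Adm A B)
    (hy : y < phi α A B m M x) : Up M m (sol α A B x y) := by
  obtain ⟨y1, hy1, hd⟩ := exists_dn D h.1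
  have hne : Set.Nonempty {y | 0 < y ∧ Up M m (sol α A B x y)} := ⟨y1, hy1, hd⟩
  obtain ⟨y', ⟨hy', hd'⟩, hlt⟩ := exists_lt_of_lt_csSup hne hy
  exact dn_mono D (adm_of_pos D h.1 hy') h le_rfl hlt.le hd'

theorem not_dn_of_gt (D : Dat α A B e m M) {x y : ℝ} (hx : 0 ≤ x)
    (hy : phi α A B m M x < y) : ¬ Up M m (sol α A B x y) := by
  intro hd
  have h1 : y ∈ {y | 0 < y ∧ Up M m (sol α A B x y)} := ⟨(phi_pos D hx).trans hy, hd⟩
  exact absurd (le_csSup (phi_bdd D hx) h1) (not_le.2 hy)

theorem wq_phi (D : Dat α A B e m M) {x : ℝ} (hx : 0 ≤ x) :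
    Wq e (sol α A B x (phi α A B m M x)) := by
  have hp := phi_pos D hx
  have hadm := adm_of_pos D hx hp
  have hIoi : Ioi (0 : ℝ) ∈ 𝓝 (phi α A B m M x) := Ioi_mem_nhds hp
  rcases trich D (isSol_sol (α := α) hadm) with h | h | h
  · exfalso
    have h1 := vert D (up_open D hadm h) hx
    rw [nhdsWithin_eq_nhds.2 hIoi] at h1
    have h2 : ∀ᶠ t in 𝓝[<] (phi α A B m M x), Up m M (sol α A B x t) :=
      h1.filter_mono nhdsWithin_le_nhds
    have h3 : ∀ᶠ t in 𝓝[<] (phi α A B m M x), 0 < t :=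
      (eventually_gt_nhds hp).filter_mono nhdsWithin_le_nhds
    obtain ⟨t, ⟨ht1, ht2⟩, ht3⟩ := ((h2.and h3).and self_mem_nhdsWithin).exists
    exact up_ne D ht1 (dn_of_lt D (adm_of_pos D hx ht2) ht3)
  · exfalso
    have h1 := vert D (dn_open D hadm h) hx
    rw [nhdsWithin_eq_nhds.2 hIoi] at h1
    have h2 : ∀ᶠ t in 𝓝[>] (phi α A B m M x), Up M m (sol α A B x t) :=
      h1.filter_mono nhdsWithin_le_nhds
    obtain ⟨t, ht1, ht3⟩ := (h2.and self_mem_nhdsWithin).exists
    exact not_dn_of_gt D hx ht3 ht1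
  · exact h

theorem up_of_gt (D : Dat α A B e m M) {x y : ℝ} (hx : 0 ≤ x)
    (hy : phi α A B m M x < y) : Up m M (sol α A B x y) := by
  have hp := phi_pos D hx
  have hadm := adm_of_pos D hx (hp.trans hy)
  rcases trich D (isSol_sol (α := α) hadm) with h | h | h
  · exact h
  · exact absurd h (not_dn_of_gt D hx hy)
  · have := (w_uniq D hadm (adm_of_pos D hx hp) le_rfl hy.le h (wq_phi D hx)).2
    exact absurd this hy.ne'

theorem phi_strictMono (D : Dat α A B e m M) : StrictMonoOn (phi α A B m M) (Ici 0) := by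
  intro x hx x' hx' hlt
  by_contra hc
  push Not at hc
  have := (w_uniq D (adm_of_pos D hx (phi_pos D hx)) (adm_of_pos D hx' (phi_pos D hx')) hlt.le hc
    (wq_phi D hx) (wq_phi D hx')).1
  exact absurd this hlt.ne

theorem horiz {x y : ℝ} {P : ℝ × ℝ → Prop} (D : Dat α A B e m M)
    (h : ∀ᶠ p in 𝓝[Adm A B] (x, y), P p) (hy : 0 < y) :
    ∀ᶠ t in 𝓝[Ici 0] x, P (t, y) := by
  have h1 : Tendsto (fun t : ℝ => (t, y)) (𝓝[Ici 0] x) (𝓝[Adm A B] (x, y)) := by
    apply tendsto_nhdsWithin_iff.2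
    refine ⟨?_, ?_⟩
    · exact (Continuous.tendsto (by fun_prop) x).mono_left nhdsWithin_le_nhds
    · filter_upwards [self_mem_nhdsWithin] with t ht
      exact adm_of_pos D ht hy
  exact h1.eventually h

theorem phi_cont (D : Dat α A B e m M) : ContinuousOn (phi α A B m M) (Ici 0) := by
  intro x hx
  have hp := phi_pos D hx
  refine tendsto_order.2 ⟨fun a ha => ?_, fun a ha => ?_⟩
  · -- a < phi x
    obtain ⟨b, hb1, hb2⟩ := exists_between (max_lt ha hp)
    have hb0 : 0 < b := lt_of_le_of_lt (le_max_right _ _) hb1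
    have hab : a < b := lt_of_le_of_lt (le_max_left _ _) hb1
    have h1 := horiz D (dn_open D (adm_of_pos D hx hb0) (dn_of_lt D (adm_of_pos D hx hb0) hb2)) hb0
    filter_upwards [h1, self_mem_nhdsWithin] with t ht ht0
    have h2 : b ∈ {y | 0 < y ∧ Up M m (sol α A B t y)} := ⟨hb0, ht⟩
    exact hab.trans_le (le_csSup (phi_bdd D ht0) h2)
  · obtain ⟨b, hb1, hb2⟩ := exists_between ha
    have hb0 : 0 < b := hp.trans hb1
    have h1 := horiz D (up_open D (adm_of_pos D hx hb0) (up_of_gt D hx hb1)) hb0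
    filter_upwards [h1, self_mem_nhdsWithin] with t ht ht0
    refine lt_of_le_of_lt ?_ hb2
    by_contra hc
    push Not at hc
    exact up_ne D ht (dn_of_lt D (adm_of_pos D ht0 hb0) hc)

theorem wq_iff (D : Dat α A B e m M) {x y : ℝ} (h : (x, y) ∈ Adm A B) :
    Wq e (sol α A B x y) ↔ y = phi α A B m M x := by
  constructor
  · intro hw
    rcases lt_trichotomy y (phi α A B m M x) with h1 | h1 | h1
    · exact (dn_nw D (dn_of_lt D h h1) hw).elim
    · exact h1
    · exact (up_nw D (up_of_gt D h.1 h1) hw).elim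
  · rintro rfl
    exact wq_phi D h.1

theorem up_iff (D : Dat α A B e m M) {x y : ℝ} (h : (x, y) ∈ Adm A B) :
    Up m M (sol α A B x y) ↔ phi α A B m M x < y := by
  constructor
  · intro hw
    rcases lt_trichotomy y (phi α A B m M x) with h1 | h1 | h1
    · exact (up_ne D hw (dn_of_lt D h h1)).elim
    · exact (up_nw D hw ((wq_iff D h).2 h1)).elim
    · exact h1
  · exact fun h1 => up_of_gt D h.1 h1

theorem dn_iff (D : Dat α A B e m M) {x y : ℝ} (h : (x, y) ∈ Adm A B) :
    Up M m (sol α A B x y) ↔ y < phi α A B m M x := by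
  constructor
  · intro hw
    rcases lt_trichotomy y (phi α A B m M x) with h1 | h1 | h1
    · exact h1
    · exact (dn_nw D hw ((wq_iff D h).2 h1)).elim
    · exact (up_ne D (up_of_gt D h.1 h1) hw).elim
  · exact fun h1 => dn_of_lt D h h1

theorem phi_xbar (D : Dat α A B e m M) : phi α A B m M e = e := by
  have hadm := adm_of_pos D D.he.le D.he
  symm
  rw [← wq_iff D hadm]
  have hall : ∀ n, sol α A B e e n = e ∧ sol α A B e e (n + 1) = e := by
    intro n
    induction n with
    | zero => exact ⟨rfl, rfl⟩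
    | succ n ih =>
      refine ⟨ih.2, ?_⟩
      have h1 := (isSol_sol (α := α) hadm).2.2.2 n
      rw [ih.1, ih.2] at h1
      have h2 := (isSol_const D).2.2.2 n
      exact h1.trans h2.symm
  exact tendsto_const_nhds.congr (fun n => (hall n).1.symm)

theorem phi_eq (D : Dat α A B e m M) {x : ℝ} (hx : 0 ≤ x) :
    phi α A B m M (phi α A B m M x) * (A + B * phi α A B m M x + x) = α + x := by
  have hp := phi_pos D hx
  have hadm := adm_of_pos D hx hp
  have hz := isSol_sol (α := α) hadm
  have hw := wq_phi D hx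
  have h2 := hz.pos D 0
  have hadm2 : (phi α A B m M x, sol α A B x (phi α A B m M x) 2) ∈ Adm A B :=
    adm_of_pos D hp.le h2
  have hsh : ∀ n, sol α A B (phi α A B m M x) (sol α A B x (phi α A B m M x) 2) n
      = sol α A B x (phi α A B m M x) (n + 1) ∧
      sol α A B (phi α A B m M x) (sol α A B x (phi α A B m M x) 2) (n + 1)
      = sol α A B x (phi α A B m M x) (n + 2) := by
    intro n
    induction n with
    | zero => exact ⟨rfl, rfl⟩
    | succ n ih =>
      refine ⟨ih.2, ?_⟩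
      have h1 := (isSol_sol (α := α) hadm2).2.2.2 n
      have h3 := hz.2.2.2 (n + 1)
      rw [ih.1, ih.2] at h1
      exact h1.trans h3.symm
  have hw2 : Wq e (sol α A B (phi α A B m M x) (sol α A B x (phi α A B m M x) 2)) := by
    have h4 := (tendsto_add_atTop_iff_nat 1).2 hw
    exact h4.congr (fun n => (hsh n).1.symm)
  have h5 := (wq_iff D hadm2).1 hw2
  rw [← h5, hz.2.2.2 0]
  have h6 : 0 < A + B * phi α A B m M x + x := hz.den D 0
  show (α + x) / (A + B * phi α A B m M x + x) * (A + B * phi α A B m M x + x) = α + x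
  exact div_mul_cancel₀ _ h6.ne'

/-- The points of an orbit on the curve. -/
theorem orbit_phi (D : Dat α A B e m M) {z : ℕ → ℝ} (hz : IsSol α A B z) (hw : Wq e z) (n : ℕ) :
    z (n + 1) = phi α A B m M (z n) := by
  have hadm : (z n, z (n + 1)) ∈ Adm A B := hz.base D n
  have hz' := isSol_sol (α := α) hadm
  have hsh : ∀ k, sol α A B (z n) (z (n + 1)) k = z (n + k) ∧
      sol α A B (z n) (z (n + 1)) (k + 1) = z (n + (k + 1)) := by
    intro k
    induction k with
    | zero => exact ⟨rfl, rfl⟩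
    | succ k ih =>
      refine ⟨ih.2, ?_⟩
      have h1 := hz'.2.2.2 k
      have h3 := hz.2.2.2 (n + k)
      rw [ih.1, ih.2] at h1
      exact h1.trans h3.symm
  refine (wq_iff D hadm).1 ?_
  have h4 := (tendsto_add_atTop_iff_nat n).2 hw
  refine h4.congr (fun k => ?_)
  rw [(hsh k).1, add_comm]

theorem phi_gt_self (D : Dat α A B e m M) {x : ℝ} (hx : 0 ≤ x) (hxe : x < e) :
    x < phi α A B m M x := by
  by_contra hc
  push Not at hc
  have hp := phi_pos D hx
  have hz := isSol_sol (α := α) (adm_of_pos D hx hp)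
  have hw := wq_phi D hx
  have hanti : ∀ n, sol α A B x (phi α A B m M x) (n + 1) ≤ sol α A B x (phi α A B m M x) n := by
    intro n
    induction n with
    | zero => exact hc
    | succ n ih =>
      have h1 := orbit_phi D hz hw (n + 1)
      have h2 := orbit_phi D hz hw n
      have h3 := (phi_strictMono D).monotoneOn (hz.nn D _) (hz.nn D _) ih
      rw [← h1, ← h2] at h3
      exact h3
  have hle : ∀ n, sol α A B x (phi α A B m M x) n ≤ x := by
    intro n
    induction n with
    | zero => exact le_rfl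
    | succ n ih => exact (hanti n).trans ih
  have := le_of_tendsto' hw hle
  linarith

theorem phi_lt_self (D : Dat α A B e m M) {x : ℝ} (hxe : e < x) :
    phi α A B m M x < x := by
  by_contra hc
  push Not at hc
  have hx : 0 ≤ x := D.he.le.trans hxe.le
  have hp := phi_pos D hx
  have hz := isSol_sol (α := α) (adm_of_pos D hx hp)
  have hw := wq_phi D hx
  have hmono : ∀ n, sol α A B x (phi α A B m M x) n ≤ sol α A B x (phi α A B m M x) (n + 1) := by
    intro n
    induction n with
    | zero => exact hc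
    | succ n ih =>
      have h1 := orbit_phi D hz hw (n + 1)
      have h2 := orbit_phi D hz hw n
      have h3 := (phi_strictMono D).monotoneOn (hz.nn D _) (hz.nn D _) ih
      rw [← h1, ← h2] at h3
      exact h3
  have hle : ∀ n, x ≤ sol α A B x (phi α A B m M x) n := by
    intro n
    induction n with
    | zero => exact le_rfl
    | succ n ih => exact ih.trans (hmono n)
  have := ge_of_tendsto' hw hle
  linarith

theorem phi_kappa (D : Dat α A B e m M) {x : ℝ} (hx : 0 ≤ x) :
    α < A + B * phi α A B m M x := by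
  by_contra hc
  push Not at hc
  have hp := phi_pos D hx
  have hz := isSol_sol (α := α) (adm_of_pos D hx hp)
  have hw := wq_phi D hx
  have h1 := one_le_step (α := α) (hz.den D 0) hc
  rw [← hz.2.2.2 0] at h1
  have h2 : phi α A B m M x < e := by
    by_contra h
    push Not at h
    have := mul_le_mul_of_nonneg_left h (by linarith [D.hB] : (0 : ℝ) ≤ B)
    have := D.hkpos
    linarith
  exact dn_nw D (class_odd D hz (j := 0) h2 (lt_of_lt_of_le D.he1 h1)) hw

theorem phi_phi_lt_one (D : Dat α A B e m M) {x : ℝ} (hx : 0 ≤ x) :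
    phi α A B m M (phi α A B m M x) < 1 := by
  have h1 := phi_eq D hx
  have h2 := phi_kappa D hx
  have h3 : 0 < A + B * phi α A B m M x + x := by linarith [D.hα]
  by_contra hc
  push Not at hc
  nlinarith

theorem phi_limit (D : Dat α A B e m M) :
    ∃ L, 1 < L ∧ Tendsto (phi α A B m M) atTop (𝓝 L) ∧ phi α A B m M L = 1 ∧
      ∀ x, 0 ≤ x → phi α A B m M x < L := by
  have hmono := (phi_strictMono D).monotoneOn
  -- boundedness
  obtain ⟨K, hK⟩ : ∃ K, ∀ x, 0 ≤ x → phi α A B m M x ≤ K := by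
    by_contra hc
    push Not at hc
    obtain ⟨y0, hy0, h1⟩ := hc 1
    obtain ⟨x, hx, h2⟩ := hc y0
    have h3 := hmono hy0 (phi_pos D hx).le h2.le
    have h4 := phi_phi_lt_one D hx
    linarith
  set L := sSup (phi α A B m M '' Ici 0) with hL
  have hbdd : BddAbove (phi α A B m M '' Ici 0) := ⟨K, by rintro _ ⟨x, hx, rfl⟩; exact hK x hx⟩
  have hle : ∀ x, 0 ≤ x → phi α A B m M x ≤ L := fun x hx => le_csSup hbdd ⟨x, hx, rfl⟩
  have hlt : ∀ x, 0 ≤ x → phi α A B m M x < L := by
    intro x hx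
    have h1 : phi α A B m M x < phi α A B m M (x + 1) :=
      phi_strictMono D hx (by show (0 : ℝ) ≤ x + 1; linarith) (by linarith)
    exact h1.trans_le (hle _ (by linarith))
  have htend : Tendsto (phi α A B m M) atTop (𝓝 L) := by
    refine tendsto_order.2 ⟨fun a ha => ?_, fun a ha => ?_⟩
    · have hne : (phi α A B m M '' Ici 0).Nonempty := ⟨_, 0, le_refl (0 : ℝ), rfl⟩
      obtain ⟨_, ⟨x, hx, rfl⟩, h1⟩ := exists_lt_of_lt_csSup hne ha
      filter_upwards [eventually_ge_atTop x] with t ht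
      exact h1.trans_le (hmono hx (le_trans hx ht) ht)
    · filter_upwards [eventually_ge_atTop 0] with t ht
      exact (hle t ht).trans_lt ha
  have hL0 : 0 < L := (phi_pos D le_rfl).trans_le (hle 0 le_rfl)
  have hLone : phi α A B m M L = 1 := by
    have h1 : Tendsto (fun x => phi α A B m M (phi α A B m M x)) atTop (𝓝 (phi α A B m M L)) := by
      have hc : ContinuousWithinAt (phi α A B m M) (Ici 0) L := phi_cont D L hL0.le
      refine hc.tendsto.comp (tendsto_nhdsWithin_iff.2 ⟨htend, ?_⟩)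
      filter_upwards [eventually_ge_atTop 0] with t ht
      exact (phi_pos D ht).le
    have h2 : Tendsto (fun x => phi α A B m M (phi α A B m M x)) atTop (𝓝 1) := by
      have h3 : Tendsto (fun x : ℝ => (α / x + 1) / ((A + B * phi α A B m M x) / x + 1)) atTop
          (𝓝 ((0 + 1) / (0 + 1))) := by
        refine Tendsto.div ?_ ?_ (by norm_num)
        · exact (tendsto_const_nhds.div_atTop tendsto_id).add tendsto_const_nhds
        · refine Tendsto.add ?_ tendsto_const_nhds
          exact (tendsto_const_nhds.add (htend.const_mul B)).div_atTop tendsto_id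
      rw [show ((0 : ℝ) + 1) / (0 + 1) = 1 by norm_num] at h3
      refine h3.congr' ?_
      filter_upwards [eventually_gt_atTop 0] with x hx
      have h4 := phi_eq D hx.le
      have h5 := phi_kappa D hx.le
      have h6 : 0 < A + B * phi α A B m M x + x := by linarith [D.hα]
      have h7 : (A + B * phi α A B m M x) / x + 1 = (A + B * phi α A B m M x + x) / x := by
        field_simp
      have h8 : α / x + 1 = (α + x) / x := by field_simp
      rw [h7, h8, ← h4]
      field_simp
    exact tendsto_nhds_unique h1 h2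
  have hLe : e < L := by
    by_contra hc
    push Not at hc
    have h1 := hmono (show (0 : ℝ) ≤ L from hL0.le) (show (0 : ℝ) ≤ e from D.he.le) hc
    rw [hLone, phi_xbar D] at h1
    linarith [D.he1]
  refine ⟨L, ?_, htend, hLone, hlt⟩
  have h1 := phi_lt_self D hLe
  rw [hLone] at h1
  exact h1

theorem psi_unique (D : Dat α A B e m M) (ψ : ℝ → ℝ) (h0 : ∀ x, 0 ≤ x → 0 ≤ ψ x)
    (hmono : MonotoneOn ψ (Ici 0))
    (heq : ∀ x, 0 ≤ x → ψ (ψ x) * (A + B * ψ x + x) = α + x) {x : ℝ} (hx : 0 ≤ x) :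
    ψ x = phi α A B m M x := by
  set z : ℕ → ℝ := fun n => ψ^[n] x with hz
  have hzs : ∀ n, z (n + 1) = ψ (z n) := fun n => by
    simp only [hz]; exact Function.iterate_succ_apply' ψ n x
  have hnn : ∀ n, 0 ≤ z n := by
    intro n
    induction n with
    | zero => exact hx
    | succ n ih => rw [hzs]; exact h0 _ ih
  have hden : ∀ n, 0 < A + B * z (n + 1) + z n := by
    intro n
    have h1 := heq (z n) (hnn n)
    rw [← hzs, ← hzs] at h1
    have h2 : 0 ≤ A + B * z (n + 1) + z n := by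
      have h3 := hnn n
      have h4 := hnn (n + 1)
      have h5 : 0 ≤ B * z (n + 1) := mul_nonneg (by linarith [D.hB]) h4
      linarith [D.hA]
    refine lt_of_le_of_ne h2 (fun hc => ?_)
    rw [← hc, mul_zero] at h1
    linarith [D.hα, hnn n]
  have hsol : IsSol α A B z := by
    refine ⟨hnn 0, hnn 1, hden 0, fun n => ?_⟩
    have h1 := heq (z n) (hnn n)
    rw [← hzs, ← hzs] at h1
    rw [eq_div_iff (hden n).ne']
    exact h1
  obtain ⟨K, -, hK⟩ := hsol.bdd D
  obtain ⟨l, hl⟩ : ∃ l, Tendsto z atTop (𝓝 l) := by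
    rcases le_total (z 0) (z 1) with hc | hc
    · have : Monotone z := by
        apply monotone_nat_of_le_succ
        intro n
        induction n with
        | zero => exact hc
        | succ n ih =>
          have := hmono (hnn n) (hnn (n + 1)) ih
          rw [← hzs, ← hzs] at this
          exact this
      exact ⟨_, tendsto_atTop_ciSup this ⟨K, by rintro _ ⟨k, rfl⟩; exact hK _⟩⟩
    · have : Antitone z := by
        apply antitone_nat_of_succ_le
        intro n
        induction n with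
        | zero => exact hc
        | succ n ih =>
          have := hmono (hnn (n + 1)) (hnn n) ih
          rw [← hzs, ← hzs] at this
          exact this
      exact ⟨_, tendsto_atTop_ciInf this ⟨0, by rintro _ ⟨k, rfl⟩; exact hnn _⟩⟩
  have hw : Wq e z := by
    rcases trich D hsol with h | h | h
    · have h1 := tendsto_nhds_unique h.1 (tendsto_even hl)
      have h2 := tendsto_nhds_unique h.2 (tendsto_odd hl)
      have := D.hmM
      linarith
    · have h1 := tendsto_nhds_unique h.1 (tendsto_even hl)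
      have h2 := tendsto_nhds_unique h.2 (tendsto_odd hl)
      have := D.hmM
      linarith
    · exact h
  exact orbit_phi D hsol hw 0

theorem up_time (D : Dat α A B e m M) {x y : ℝ} (h : (x, y) ∈ Adm A B) :
    Up m M (sol α A B x y) ↔ ∃ k, sol α A B x y (2 * k) < e ∧ e < sol α A B x y (2 * k + 1) := by
  constructor
  · intro hu
    exact ((hu.1.eventually_lt_const D.hme).and (hu.2.eventually_const_lt D.heM)).exists
  · rintro ⟨k, h1, h2⟩
    exact class_even D (isSol_sol h) h1 h2

theorem dn_time (D : Dat α A B e m M) {x y : ℝ} (h : (x, y) ∈ Adm A B) :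
    Up M m (sol α A B x y) ↔ ∃ k, e < sol α A B x y (2 * k) ∧ sol α A B x y (2 * k + 1) < e := by
  constructor
  · intro hu
    exact ((hu.1.eventually_const_lt D.heM).and (hu.2.eventually_lt_const D.hme)).exists
  · rintro ⟨k, h1, h2⟩
    exact class_even' D (isSol_sol h) h1 h2

theorem up_prod {a b : ℝ} {z : ℕ → ℝ} :
    Tendsto (fun n => (z (2 * n + 1), z (2 * n + 2))) atTop (𝓝 (b, a)) ↔ Up a b z := by
  rw [Prod.tendsto_iff]
  constructor
  · rintro ⟨h1, h2⟩
    exact ⟨(tendsto_add_atTop_iff_nat 1).1 h2, h1⟩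
  · rintro ⟨h1, h2⟩
    exact ⟨h2, (tendsto_add_atTop_iff_nat 1).2 h1⟩

/-- The concrete data. -/
theorem dat (hα : 0 < α) (hB : 1 < B) (hA : 0 ≤ A) (hA1 : A < 1)
    (H : α < (B - 1) * (1 - A) ^ 2 / 4) :
    Dat α A B (xbar α A B) (mlo α A B) (mhi α A B) := by
  have hB1 : 0 < B - 1 := by linarith
  have hB2 : 0 < 1 + B := by linarith
  have hD1 : 0 ≤ (1 - A) ^ 2 + 4 * α * (1 + B) := by positivity
  have hD2 : 0 < (1 - A) ^ 2 - 4 * α / (B - 1) := by
    rw [sub_pos, div_lt_iff₀ hB1]
    linarith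
  set r := √((1 - A) ^ 2 + 4 * α * (1 + B)) with hr
  set s := √((1 - A) ^ 2 - 4 * α / (B - 1)) with hs
  have hr2 : r ^ 2 = (1 - A) ^ 2 + 4 * α * (1 + B) := Real.sq_sqrt hD1
  have hs2 : s ^ 2 = (1 - A) ^ 2 - 4 * α / (B - 1) := Real.sq_sqrt hD2.le
  have hr0 : 0 ≤ r := Real.sqrt_nonneg _
  have hs0 : 0 < s := Real.sqrt_pos.2 hD2
  have hs3 : s < 1 - A := by
    have h1 : s ^ 2 < (1 - A) ^ 2 := by
      rw [hs2]
      have : 0 < 4 * α / (B - 1) := by positivity
      linarith
    exact lt_of_pow_lt_pow_left₀ 2 (by linarith) h1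
  have he : xbar α A B = (1 - A + r) / (2 * (1 + B)) := rfl
  have hm : mlo α A B = (1 - A - s) / 2 := rfl
  have hM : mhi α A B = (1 - A + s) / 2 := rfl
  have hrB : r < B * (1 - A) := by
    have h1 : r ^ 2 < (B * (1 - A)) ^ 2 := by
      rw [hr2]
      have h2 : 4 * α * (1 + B) < (B - 1) * (1 - A) ^ 2 * (1 + B) := by nlinarith
      nlinarith
    exact lt_of_pow_lt_pow_left₀ 2 (by nlinarith) h1
  refine ⟨hα, hB, hA, hA1, ?_, ?_, ?_, ?_, ?_, ?_, ?_⟩
  · rw [he]
    apply div_pos _ (by linarith)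
    linarith
  · rw [he, div_pow]
    field_simp
    linear_combination hr2
  · rw [he, ← mul_div_assoc, div_lt_iff₀ (by linarith)]
    nlinarith
  · rw [hm]; linarith
  · rw [hm, hM]; linarith
  · rw [hm, hM]; ring
  · rw [hm, hM]
    have h1 : (1 - A - s) / 2 * ((1 - A + s) / 2) = ((1 - A) ^ 2 - s ^ 2) / 4 := by ring
    rw [h1, hs2]
    field_simp
    ring

/-- **Theorem (Q1).** Assume `α > 0`, `B > 1`, `0 ≤ A < 1` and (H).  There is a function `φ` on
`[0,∞)`, continuous, strictly increasing, with `φ > max(0, (α-A)/B)`, `φ(x̄) = x̄`, `φ(x) > x` for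
`x < x̄` and `φ(x) < x` for `x > x̄`, with a finite limit `L > 1` at infinity, `φ(L) = 1`, and `φ`
is the unique nonnegative nondecreasing solution on `[0,∞)` of the functional equation
`φ(φ(x)) (A + B φ(x) + x) = α + x`, such that for every admissible initial pair
`(x_{-1}, x_0) = (x, y)`:
* the solution converges to `x̄` iff `y = φ(x)`;
* `(x_{2n}, x_{2n+1}) → (M, m)` iff `y > φ(x)`, iff `x_{2k-1} < x̄ < x_{2k}` for some `k ≥ 0`;
* `(x_{2n}, x_{2n+1}) → (m, M)` iff `y < φ(x)`, iff `x_{2k} < x̄ < x_{2k-1}` for some `k ≥ 0`.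
Here `sol α A B x y 0 = x_{-1}` and `sol α A B x y (n+1) = x_n`. -/
theorem result (α A B : ℝ) (hα : 0 < α) (hB : 1 < B) (hA : 0 ≤ A) (hA1 : A < 1)
    (H : α < (B - 1) * (1 - A) ^ 2 / 4) :
    ∃ φ : ℝ → ℝ,
      ContinuousOn φ (Ici 0) ∧ StrictMonoOn φ (Ici 0) ∧
      (∀ x, 0 ≤ x → 0 < φ x ∧ α < A + B * φ x) ∧
      φ (xbar α A B) = xbar α A B ∧
      (∀ x, 0 ≤ x → x < xbar α A B → x < φ x) ∧
      (∀ x, xbar α A B < x → φ x < x) ∧
      (∃ L, 1 < L ∧ Tendsto φ atTop (𝓝 L) ∧ φ L = 1 ∧ ∀ x, 0 ≤ x → φ x < L) ∧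
      (∀ x, 0 ≤ x → φ (φ x) * (A + B * φ x + x) = α + x) ∧
      (∀ ψ : ℝ → ℝ, (∀ x, 0 ≤ x → 0 ≤ ψ x) → MonotoneOn ψ (Ici 0) →
        (∀ x, 0 ≤ x → ψ (ψ x) * (A + B * ψ x + x) = α + x) → ∀ x, 0 ≤ x → ψ x = φ x) ∧
      ∀ x y : ℝ, 0 ≤ x → 0 ≤ y → (A = 0 → (x, y) ≠ (0, 0)) →
        (Tendsto (sol α A B x y) atTop (𝓝 (xbar α A B)) ↔ y = φ x) ∧
        (Tendsto (fun n => (sol α A B x y (2 * n + 1), sol α A B x y (2 * n + 2))) atTop
          (𝓝 (mhi α A B, mlo α A B)) ↔ φ x < y) ∧
        (Tendsto (fun n => (sol α A B x y (2 * n + 1), sol α A B x y (2 * n + 2))) atTop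
          (𝓝 (mlo α A B, mhi α A B)) ↔ y < φ x) ∧
        (φ x < y ↔ ∃ k, sol α A B x y (2 * k) < xbar α A B ∧
          xbar α A B < sol α A B x y (2 * k + 1)) ∧
        (y < φ x ↔ ∃ k, xbar α A B < sol α A B x y (2 * k) ∧
          sol α A B x y (2 * k + 1) < xbar α A B) := by
  have D := dat hα hB hA hA1 H
  refine ⟨phi α A B (mlo α A B) (mhi α A B), phi_cont D, phi_strictMono D,
    fun x hx => ⟨phi_pos D hx, phi_kappa D hx⟩, phi_xbar D, fun x hx h => phi_gt_self D hx h,
    fun x h => phi_lt_self D h, phi_limit D, fun x hx => phi_eq D hx,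
    fun ψ h1 h2 h3 x hx => psi_unique D ψ h1 h2 h3 hx, ?_⟩
  intro x y hx hy hne
  have hadm : (x, y) ∈ Adm A B := by
    refine ⟨hx, hy, ?_⟩
    show 0 < A + B * y + x
    have h1 : 0 ≤ B * y := mul_nonneg (by linarith) hy
    refine lt_of_le_of_ne (by linarith) (fun hc => ?_)
    have hA0 : A = 0 := by linarith
    have hx0 : x = 0 := by linarith
    have hBy : B * y = 0 := by linarith
    have hy0 : y = 0 := by
      rcases mul_eq_zero.1 hBy with h | h
      · linarith
      · exact h
    exact hne hA0 (by rw [hx0, hy0])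
  refine ⟨wq_iff D hadm, ?_, ?_, ?_, ?_⟩
  · rw [up_prod]; exact up_iff D hadm
  · rw [up_prod]; exact dn_iff D hadm
  · rw [← up_iff D hadm]; exact up_time D hadm
  · rw [← dn_iff D hadm]; exact dn_time D hadm

end Pool.Agent.Results.MP_a0c75d_an.TwoCycleBasin
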